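import Pool.Agent.Helper28.Sus.Sav

/-!
# The greedy sequence of descriptions
-/

namespace Pool.Agent.Helper31.SusD

open Pool.Agent.Helper65.LinSpace Finset

/-- The least `m < N` with `p m ≠ 0`, or `N` if there is none. -/
def lst (N : ℕ) (p : ℕ → ℕ) : ℕ := ∑ m ∈ range N, eq01 (∑ i ∈ range (m + 1), p i) 0

theorem lst_le (N : ℕ) (p : ℕ → ℕ) : lst N p ≤ N := by
  unfold lst
  refine (sum_le_sum (g := fun _ => 1) fun i _ => ?_).trans (by simp)
  unfold eq01
  split_ifs <;> omega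

theorem lst_eq {N m : ℕ} {p : ℕ → ℕ} (hm : m ≤ N) (h1 : ∀ i < m, p i = 0)
    (h2 : m < N → p m ≠ 0) : lst N p = m := by
  unfold lst
  refine sum_lt_ind hm fun i hi => ?_
  unfold eq01
  by_cases h : i < m
  · rw [if_pos h, if_pos]
    exact sum_eq_zero fun j hj => h1 j (by rw [mem_range] at hj; omega)
  · rw [if_neg h, if_neg]
    intro h3
    rw [sum_eq_zero_iff] at h3
    exact h2 (by omega) (h3 m (mem_range.2 (by omega)))

/-- If there is an `m < N` with `p m ≠ 0` then `lst N p` is such a number, and at most `m`. -/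
theorem lst_spec {N m : ℕ} {p : ℕ → ℕ} (hm : m < N) (h : p m ≠ 0) :
    p (lst N p) ≠ 0 ∧ lst N p ≤ m := by
  classical
  have hex : ∃ m, p m ≠ 0 := ⟨m, h⟩
  have h1 := Nat.find_spec hex
  have h2 : Nat.find hex ≤ m := Nat.find_min' hex h
  have h3 : lst N p = Nat.find hex := by
    refine lst_eq (by omega) (fun i hi => ?_) fun _ => h1
    have := Nat.find_min hex hi
    push Not at this
    exact this
  rw [h3]
  exact ⟨h1, h2⟩

theorem lst_ne {N : ℕ} {p : ℕ → ℕ} (h : lst N p < N) : p (lst N p) ≠ 0 := by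
  by_cases hex : ∃ m < N, p m ≠ 0
  · obtain ⟨m, hm, h1⟩ := hex
    exact (lst_spec hm h1).1
  · push Not at hex
    have : lst N p = N := lst_eq le_rfl (fun i hi => hex i hi) fun h => absurd h (lt_irrefl _)
    omega

/-- The next configuration after `c`: `chk c τ d` tests if the configuration number `d` describes the
configuration after `τ` steps; here the least `τ < N`, and then the least `d < Z`, are chosen. -/
def nxt (chk : ℕ → ℕ → ℕ → ℕ) (N Z c : ℕ) : ℕ :=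
  ifz c 0 (ifz (lt01 (lst (N * Z) fun m => chk c (m / Z) (m % Z)) (N * Z)) 0
    ((lst (N * Z) fun m => chk c (m / Z) (m % Z)) % Z))

/-- The sequence of the configurations. -/
def itr (chk : ℕ → ℕ → ℕ → ℕ) (N Z j : ℕ) : ℕ := nrec 1 (fun _ c => nxt chk N Z c) j

theorem itr_zero (chk : ℕ → ℕ → ℕ → ℕ) (N Z : ℕ) : itr chk N Z 0 = 1 := rfl

theorem itr_succ (chk : ℕ → ℕ → ℕ → ℕ) (N Z j : ℕ) :
    itr chk N Z (j + 1) = nxt chk N Z (itr chk N Z j) := rfl

theorem nxt_lt (chk : ℕ → ℕ → ℕ → ℕ) (N : ℕ) {Z : ℕ} (hZ : 0 < Z) (c : ℕ) :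
    nxt chk N Z c < Z := by
  unfold nxt ifz
  split_ifs
  · exact hZ
  · exact hZ
  · exact Nat.mod_lt _ hZ

theorem itr_lt (chk : ℕ → ℕ → ℕ → ℕ) (N : ℕ) {Z : ℕ} (hZ : 1 < Z) (j : ℕ) :
    itr chk N Z j < Z := by
  cases j with
  | zero => exact hZ
  | succ j => exact nxt_lt _ _ (by omega) _

/-- The next configuration is `0` or was tested. -/
theorem nxt_spec (chk : ℕ → ℕ → ℕ → ℕ) (N Z c : ℕ) :
    nxt chk N Z c = 0 ∨ ∃ τ < N, ∃ d < Z, nxt chk N Z c = d ∧ chk c τ d ≠ 0 := by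
  unfold nxt
  set m := lst (N * Z) fun m => chk c (m / Z) (m % Z) with hm
  by_cases h1 : c = 0
  · rw [h1, ifz_zero]
    exact Or.inl rfl
  rw [ifz_ne h1]
  by_cases h2 : m < N * Z
  · right
    have h3 : lt01 m (N * Z) ≠ 0 := by
      rw [lt01, if_pos h2]
      exact one_ne_zero
    rw [ifz_ne h3]
    have hZ : 0 < Z := by
      rcases Nat.eq_zero_or_pos Z with h | h
      · rw [h, mul_zero] at h2
        omega
      · exact h
    exact ⟨m / Z, Nat.div_lt_of_lt_mul (by rw [mul_comm]; exact h2), m % Z, Nat.mod_lt _ hZ, rfl,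
      lst_ne h2⟩
  · have h3 : lt01 m (N * Z) = 0 := by rw [lt01, if_neg h2]
    rw [h3, ifz_zero]
    exact Or.inl rfl

/-- If some configuration is found then the first one is chosen. -/
theorem nxt_of {chk : ℕ → ℕ → ℕ → ℕ} {N Z c τ d : ℕ} (hc : c ≠ 0) (hτ : τ < N) (hd : d < Z)
    (h : chk c τ d ≠ 0) : ∃ τ' ≤ τ, ∃ d' < Z, nxt chk N Z c = d' ∧ chk c τ' d' ≠ 0 := by
  have hZ : 0 < Z := by omega
  have h1 : τ * Z + d < N * Z := by
    calc τ * Z + d < τ * Z + Z := by omega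
      _ = (τ + 1) * Z := by ring
      _ ≤ N * Z := Nat.mul_le_mul_right _ hτ
  have e1 : (τ * Z + d) / Z = τ := by
    rw [mul_comm, Nat.mul_add_div hZ, Nat.div_eq_of_lt hd, add_zero]
  have e2 : (τ * Z + d) % Z = d := by
    rw [mul_comm, Nat.mul_add_mod, Nat.mod_eq_of_lt hd]
  obtain ⟨h2, h3⟩ := lst_spec (p := fun m => chk c (m / Z) (m % Z)) h1
    (by show chk c ((τ * Z + d) / Z) ((τ * Z + d) % Z) ≠ 0; rw [e1, e2]; exact h)
  set m := lst (N * Z) fun m => chk c (m / Z) (m % Z) with hm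
  refine ⟨m / Z, ?_, m % Z, Nat.mod_lt _ hZ, ?_, h2⟩
  · rw [← e1]
    exact Nat.div_le_div_right h3
  · unfold nxt
    have h4 : lt01 m (N * Z) ≠ 0 := by
      rw [lt01, if_pos (by omega)]
      exact one_ne_zero
    rw [ifz_ne hc, ← hm, ifz_ne h4]

/-- Soundness of the greedy sequence. -/
theorem itr_sound {chk : ℕ → ℕ → ℕ → ℕ} {N Z : ℕ} {R : ℕ → ℕ → Prop} (h0 : R 1 0)
    (hs : ∀ c t τ d, R c t → τ < N → chk c τ d ≠ 0 → R d (t + τ)) (j : ℕ) :
    itr chk N Z j = 0 ∨ ∃ t, R (itr chk N Z j) t := by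
  induction j with
  | zero => exact Or.inr ⟨0, h0⟩
  | succ j ih =>
    rw [itr_succ]
    rcases nxt_spec chk N Z (itr chk N Z j) with h | ⟨τ, hτ, d, _, h1, h2⟩
    · exact Or.inl h
    · rcases ih with h3 | ⟨t, ht⟩
      · left
        rw [h3]
        rfl
      · right
        rw [h1]
        exact ⟨t + τ, hs _ _ _ _ ht hτ h2⟩

/-- Completeness of the greedy sequence. -/
theorem itr_complete {chk : ℕ → ℕ → ℕ → ℕ} {ac : ℕ → ℕ → ℕ} {N Z r : ℕ} {R : ℕ → ℕ → Prop}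
    (hZ : 1 < Z) (h0 : R 1 0) (hR : ∀ c t, R c t → c ≠ 0)
    (hs : ∀ c t τ d, R c t → τ < N → chk c τ d ≠ 0 → R d (t + τ) ∧ 0 < τ)
    (hc : ∀ c t, R c t → t ≤ r → (∃ τ < N, ac c τ ≠ 0) ∨
      ∃ τ < N, ∃ d < Z, t + τ ≤ r ∧ chk c τ d ≠ 0) :
    ∃ j < Z, itr chk N Z j ≠ 0 ∧ ∃ τ < N, ac (itr chk N Z j) τ ≠ 0 := by
  classical
  have hex : ∃ j, itr chk N Z j ≠ 0 ∧ ∃ τ < N, ac (itr chk N Z j) τ ≠ 0 := by
    by_contra hcon
    push Not at hcon
    have key : ∀ j, ∃ t, j ≤ t ∧ t ≤ r ∧ R (itr chk N Z j) t := by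
      intro j
      induction j with
      | zero => exact ⟨0, le_rfl, Nat.zero_le _, h0⟩
      | succ j ih =>
        obtain ⟨t, h1, h2, h3⟩ := ih
        rcases hc _ _ h3 h2 with ⟨τ, hτ, h4⟩ | ⟨τ, hτ, d, hd, h4, h5⟩
        · exact absurd (hcon j (hR _ _ h3) τ hτ) h4
        · obtain ⟨τ', hτ', d', _, h6, h7⟩ := nxt_of (hR _ _ h3) hτ hd h5
          obtain ⟨h8, h9⟩ := hs _ _ _ _ h3 (by omega) h7
          refine ⟨t + τ', by omega, by omega, ?_⟩
          rw [itr_succ, h6]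
          exact h8
    obtain ⟨t, h1, h2, _⟩ := key (r + 1)
    omega
  obtain ⟨J, ⟨hJ1, hJ2⟩, hmin⟩ : ∃ J, (itr chk N Z J ≠ 0 ∧ ∃ τ < N, ac (itr chk N Z J) τ ≠ 0) ∧
      ∀ j < J, ¬(itr chk N Z j ≠ 0 ∧ ∃ τ < N, ac (itr chk N Z j) τ ≠ 0) :=
    ⟨Nat.find hex, Nat.find_spec hex, fun j hj => Nat.find_min hex hj⟩
  refine ⟨J, ?_, hJ1, hJ2⟩
  by_contra hcon
  obtain ⟨a, ha, b, hb, hab, e⟩ := exists_ne_map_eq_of_card_lt_of_maps_to
    (s := range (J + 1)) (t := range Z) (f := fun j => itr chk N Z j)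
    (by rw [card_range, card_range]; omega)
    (fun j _ => by
      rw [coe_range, Set.mem_Iio]
      exact itr_lt _ _ hZ j)
  rw [mem_range] at ha hb
  have e' : itr chk N Z a = itr chk N Z b := e
  have hcong : ∀ a b m, itr chk N Z a = itr chk N Z b →
      itr chk N Z (a + m) = itr chk N Z (b + m) := by
    intro a b m h
    induction m with
    | zero => exact h
    | succ m ih => rw [← add_assoc, ← add_assoc, itr_succ, itr_succ, ih]
  have key : ∀ a b, a < b → b ≤ J → itr chk N Z a = itr chk N Z b → False := by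
    intro a b hab hb h
    have h2 := hcong a b (J - b) h
    rw [show b + (J - b) = J by omega] at h2
    refine hmin (a + (J - b)) (by omega) ?_
    rw [h2]
    exact ⟨hJ1, hJ2⟩
  rcases Nat.lt_or_gt_of_ne hab with h | h
  · exact key a b h (by omega) e'
  · exact key b a h (by omega) e'.symm

/-! ### Linear space -/

theorem LS.lst {α : Type} [Ctx α] {N : α → ℕ} {p : α → ℕ → ℕ} (hN : LS N)
    (hp : LS (fun z : α × ℕ => p z.1 z.2)) (h1 : ∀ a m, p a m ≤ 1) :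
    LS (fun a => lst (N a) (p a)) := by
  unfold SusD.lst
  refine LS.sum_le (N := N) (B := fun _ => 1)
    (f := fun a m => eq01 (∑ i ∈ range (m + 1), p a i) 0) ?_ hN (LS.const 1) fun a i _ => ?_
  · refine LS.eq01 ?_ (LS.const 0)
    refine LS.sum_le (α := α × ℕ) (N := fun z => z.2 + 1) (B := fun _ => 1)
      (f := fun z i => p z.1 i) ?_ (LS.add LS.snd (LS.const 1)) (LS.const 1)
      fun z i _ => h1 _ _
    exact LS.comp (g := fun z : α × ℕ => p z.1 z.2) (f := fun z : (α × ℕ) × ℕ => (z.1.1, z.2)) hp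
      (by fun_prop)
  · unfold eq01
    split_ifs <;> omega

theorem LS.nxt {α : Type} [Ctx α] {chk : α → ℕ → ℕ → ℕ → ℕ} {N Z c : α → ℕ} (hN : LS N)
    (hZ : LS Z) (hc : LS c)
    (hchk : LS (fun z : α × ℕ × ℕ × ℕ => chk z.1 z.2.1 z.2.2.1 z.2.2.2))
    (h1 : ∀ a c τ d, chk a c τ d ≤ 1) :
    LS (fun a => nxt (chk a) (N a) (Z a) (c a)) := by
  have hl : LS (fun a => SusD.lst (N a * Z a) fun m => chk a (c a) (m / Z a) (m % Z a)) := by
    refine LS.lst (LS.mul hN hZ) ?_ fun a m => h1 _ _ _ _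
    have hZ' : LS (fun z : α × ℕ => Z z.1) := LS.comp (g := Z) hZ LS.fst
    have hc' : LS (fun z : α × ℕ => c z.1) := LS.comp (g := c) hc LS.fst
    exact LS.comp (g := fun z : α × ℕ × ℕ × ℕ => chk z.1 z.2.1 z.2.2.1 z.2.2.2)
      (f := fun z : α × ℕ => (z.1, c z.1, z.2 / Z z.1, z.2 % Z z.1)) hchk (by fun_prop)
  unfold SusD.nxt
  exact LS.ifz hc (LS.const 0) (LS.ifz (LS.lt01 hl (LS.mul hN hZ)) (LS.const 0) (LS.mod hl hZ))

theorem LS.itr {α : Type} [Ctx α] {chk : α → ℕ → ℕ → ℕ → ℕ} {N Z j : α → ℕ} (hN : LS N)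
    (hZ : LS Z) (hj : LS j)
    (hchk : LS (fun z : α × ℕ × ℕ × ℕ => chk z.1 z.2.1 z.2.2.1 z.2.2.2))
    (h1 : ∀ a c τ d, chk a c τ d ≤ 1) :
    LS (fun a => itr (chk a) (N a) (Z a) (j a)) := by
  unfold SusD.itr
  refine LS.nrec (G := fun _ => 1) (N := j) (C := fun a => Z a + 1)
    (K := fun a _ c => SusD.nxt (chk a) (N a) (Z a) c) (LS.const 1) hj
    (LS.add hZ (LS.const 1)) ?_ ?_
  · refine LS.nxt (chk := fun z : α × ℕ × ℕ => chk z.1) (N := fun z => N z.1)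
      (Z := fun z => Z z.1) (c := fun z => z.2.2) (LS.comp (g := N) hN LS.fst)
      (LS.comp (g := Z) hZ LS.fst) (by fun_prop) ?_ fun a c τ d => h1 _ _ _ _
    exact LS.comp (g := fun z : α × ℕ × ℕ × ℕ => chk z.1 z.2.1 z.2.2.1 z.2.2.2)
      (f := fun z : (α × ℕ × ℕ) × ℕ × ℕ × ℕ => (z.1.1, z.2.1, z.2.2.1, z.2.2.2)) hchk
      (by fun_prop)
  · intro a i _
    cases i with
    | zero => exact Nat.succ_le_succ (Nat.zero_le _)
    | succ i =>
      show SusD.nxt (chk a) (N a) (Z a) _ ≤ _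
      rcases Nat.eq_zero_or_pos (Z a) with h | h
      · unfold SusD.nxt ifz
        split_ifs
        · exact Nat.zero_le _
        · exact Nat.zero_le _
        · rename_i h2 h3
          exfalso
          apply h3
          rw [h, mul_zero]
          rfl
      · have := nxt_lt (chk a) (N a) h (nrec 1 (fun _ c => SusD.nxt (chk a) (N a) (Z a) c) i)
        exact this.le.trans (Nat.le_succ _)

end Pool.Agent.Helper31.SusD
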