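import Pool.Agent.Helper31.SusD.Snd

/-!
# The decompressor on numbers
-/

namespace Pool.Agent.Helper31.SusD

open Pool.Agent.Helper65.LinSpace Pool.Agent.Helper78.Mpc Pool.Agent.Helper28.Ram Finset
open Pool.Agent.Helper81.Sus2 (Decomp)
open Pool.Agent.Helper11.Ram (num_eq_bval)
open Pool.Agent.Helper94.Sus (capN_cases capN_of_lt capN_mono num_lt_pow length_le_of_num_lt)

theorem len_of_capN {S : ℕ} {w : List Bool} (h : capN S (num w) ≠ 0) : w.length ≤ S := by
  by_contra hcon
  apply h
  unfold capN lt01
  rw [log_num, if_pos (by omega), ifz_ne one_ne_zero]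

theorem num_toList (a : Option Bool) : num a.toList = 1 + codeO a := by
  cases a with
  | none => rfl
  | some b =>
    show b.toNat + 2 * 1 = 1 + (1 + b.toNat)
    omega

section

variable {A : DBM} {Δ : Decomp} {w y : List Bool} {P : Prm}

/-- The letters which are read. -/
def lets (w y d : List Bool) (j : ℕ) : List Bool :=
  sd (w[j]?).toList ++ (sd (y[j]?).toList ++ (d[j]?).toList)

theorem dl_num (hc : Cod A Δ w y P) (d u : List Bool) :
    P.dl (num d) (num u) = num (lets w y d (bval u)) := by
  unfold Prm.dl lets
  have h : num u - 2 ^ Nat.log 2 (num u) = bval u := by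
    rw [log_num, num_eq_bval, Nat.add_sub_cancel]
  rw [h, hc.hx, hc.hy, letN_num, letN_num, letN_num, ← num_toList, ← num_toList, ← num_toList,
    sdN_num, sdN_num, catN_num, catN_num]

theorem accN_zero_of {v : List Bool} (h : v.head? ≠ some true) : accN (num v) = 0 := by
  have h1 := accN_le (num v)
  have h2 : accN (num v) ≠ 1 := fun h3 => h ((accN_num v).1 h3)
  omega

theorem run_succ (D i : List Bool) (t : ℕ) : Δ.run w y D i (t + 1) =
    if (Δ.run w y D i t).head? = some true then Δ.run w y D i t
      else Δ.next (sd (Δ.run w y D i t) ++ lets w y D (bval (Δ.addr (Δ.run w y D i t)))) := rfl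

theorem run_keep {D i : List Bool} {t : ℕ} (h : (Δ.run w y D i t).head? = some true) :
    ∀ s, t ≤ s → Δ.run w y D i s = Δ.run w y D i t := by
  intro s hs
  induction s, hs using Nat.le_induction with
  | base => rfl
  | succ s _ ih =>
    rw [run_succ, if_pos (by rw [ih]; exact h), ih]

theorem run_congr {D i : List Bool} {s t : ℕ} (h : Δ.run w y D i s = Δ.run w y D i t) (m : ℕ) :
    Δ.run w y D i (s + m) = Δ.run w y D i (t + m) := by
  induction m with
  | zero => exact h
  | succ m ih => rw [← add_assoc, ← add_assoc, run_succ, run_succ, ih]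

/-- The bounds up to the time `t`. -/
def Gd (Δ : Decomp) (w y : List Bool) (Z : ℕ) (D i : List Bool) (t : ℕ) : Prop :=
  (∀ t' ≤ t, (Δ.run w y D i t').length ≤ Z) ∧
    ∀ t' < t, (Δ.run w y D i t').head? ≠ some true → (Δ.addr (Δ.run w y D i t')).length ≤ Z

theorem dr_eq (hc : Cod A Δ w y P) (D i : List Bool) (t : ℕ) :
    (Gd Δ w y P.Z D i t → P.dr (num D) (num i) t = num (Δ.run w y D i t)) ∧
    (P.dr (num D) (num i) t ≠ 0 → Gd Δ w y P.Z D i t) := by
  induction t with
  | zero =>
    have e : P.dr (num D) (num i) 0 = capN P.Z (num (Δ.run w y D i 0)) := by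
      show capN P.Z (2 * num i) = capN P.Z (num (false :: i))
      congr 1
      show 2 * num i = false.toNat + 2 * num i
      simp
    rw [e]
    refine ⟨fun h => capN_num (h.1 0 le_rfl), fun h => ⟨fun t' ht' => ?_, fun t' ht' => ?_⟩⟩
    · rw [Nat.le_zero.1 ht']
      exact len_of_capN h
    · exact absurd ht' (Nat.not_lt_zero _)
  | succ t ih =>
    have e : P.dr (num D) (num i) (t + 1) = P.dst (num D) (P.dr (num D) (num i) t) := rfl
    rw [e]
    have hsucc : Gd Δ w y P.Z D i (t + 1) → Gd Δ w y P.Z D i t := fun h =>
      ⟨fun t' ht' => h.1 t' (by omega), fun t' ht' => h.2 t' (by omega)⟩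
    by_cases hg : Gd Δ w y P.Z D i t
    · rw [ih.1 hg]
      have e2 := run_succ (Δ := Δ) (w := w) (y := y) D i t
      have hlen := hg.1 t le_rfl
      by_cases hh : (Δ.run w y D i t).head? = some true
      · rw [if_pos hh] at e2
        have e3 : P.dst (num D) (num (Δ.run w y D i t)) = num (Δ.run w y D i t) := by
          unfold Prm.dst
          rw [(accN_num _).2 hh, ifz_ne one_ne_zero]
        rw [e3, e2]
        refine ⟨fun _ => rfl, fun _ => ⟨fun t' ht' => ?_, fun t' ht' hne => ?_⟩⟩
        · rcases Nat.lt_or_ge t' (t + 1) with h | h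
          · exact hg.1 t' (by omega)
          · rw [show t' = t + 1 by omega, e2]
            exact hlen
        · rcases Nat.lt_or_ge t' t with h | h
          · exact hg.2 t' h hne
          · rw [show t' = t by omega] at hne
            exact absurd hh hne
      · rw [if_neg hh] at e2
        have e3 : P.dst (num D) (num (Δ.run w y D i t)) =
            ifz (P.fL (num (Δ.run w y D i t))) 0 (P.fX (num (Δ.run w y D i t))
              (P.dl (num D) (P.fL (num (Δ.run w y D i t))))) := by
          unfold Prm.dst
          rw [accN_zero_of hh, ifz_zero]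
        rw [e3, hc.hL _ hlen]
        by_cases ha : (Δ.addr (Δ.run w y D i t)).length ≤ P.Z
        · have hX := hc.hX (Δ.run w y D i t) w[bval (Δ.addr (Δ.run w y D i t))]?
            y[bval (Δ.addr (Δ.run w y D i t))]? D[bval (Δ.addr (Δ.run w y D i t))]? hlen
          rw [if_pos ha, ifz_ne (num_pos _).ne', dl_num hc]
          unfold lets at e2 ⊢
          rw [hX, ← e2]
          by_cases hn : (Δ.run w y D i (t + 1)).length ≤ P.Z
          · rw [if_pos hn]
            refine ⟨fun _ => rfl, fun _ => ⟨fun t' ht' => ?_, fun t' ht' hne => ?_⟩⟩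
            · rcases Nat.lt_or_ge t' (t + 1) with h | h
              · exact hg.1 t' (by omega)
              · rw [show t' = t + 1 by omega]
                exact hn
            · rcases Nat.lt_or_ge t' t with h | h
              · exact hg.2 t' h hne
              · rw [show t' = t by omega]
                exact ha
          · rw [if_neg hn]
            exact ⟨fun h => absurd (h.1 (t + 1) le_rfl) hn, fun h => absurd rfl h⟩
        · rw [if_neg ha, ifz_zero]
          exact ⟨fun h => absurd (h.2 t (Nat.lt_succ_self t) hh) ha, fun h => absurd rfl h⟩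
    · have h0 : P.dr (num D) (num i) t = 0 := by
        by_contra h
        exact hg (ih.2 h)
      have e3 : P.dst (num D) 0 = 0 := by
        unfold Prm.dst Prm.fL
        rw [fnN_zero]
        rfl
      rw [h0, e3]
      exact ⟨fun h => absurd (hsucc h) hg, fun h => absurd rfl h⟩

/-- The decompressor on numbers says the same as the decompressor. -/
theorem dec (hc : Cod A Δ w y P) (D i v : List Bool) :
    Δ.Says w y P.Z D i v ↔ P.lk (num D) (num i) = num v := by
  have hnum : num (true :: true :: v) = 3 + 4 * num v := by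
    show true.toNat + 2 * (true.toNat + 2 * num v) = _
    simp
    ring
  constructor
  · rintro ⟨T0, h1, h2, h3⟩
    classical
    have hex : ∃ T, Δ.run w y D i T = true :: true :: v := ⟨T0, h1⟩
    obtain ⟨T, hT, hmin⟩ : ∃ T, Δ.run w y D i T = true :: true :: v ∧
        ∀ t < T, Δ.run w y D i t ≠ true :: true :: v :=
      ⟨Nat.find hex, Nat.find_spec hex, fun t ht => Nat.find_min hex ht⟩
    have hTT : T ≤ T0 := by
      by_contra hcon
      exact hmin T0 (by omega) h1
    have hinj : ∀ a b, a < b → b ≤ T → Δ.run w y D i a ≠ Δ.run w y D i b := by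
      intro a b hab hb he
      have := run_congr he (T - b)
      rw [show b + (T - b) = T by omega, hT] at this
      exact hmin (a + (T - b)) (by omega) this
    have hlt : T < 2 ^ (P.Z + 1) := by
      by_contra hcon
      obtain ⟨a, ha, b, hb, hab, e⟩ := exists_ne_map_eq_of_card_lt_of_maps_to
        (s := range (2 ^ (P.Z + 1) + 1)) (t := range (2 ^ (P.Z + 1)))
        (f := fun t => num (Δ.run w y D i t)) (by simp)
        (fun t ht => by
          rw [coe_range, Set.mem_Iio] at ht ⊢
          exact num_lt_pow (h2 t (by omega)))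
      rw [mem_range] at ha hb
      have e' : Δ.run w y D i a = Δ.run w y D i b :=
        Pool.Agent.Helper65.LinSpace.num_injective e
      rcases Nat.lt_or_gt_of_ne hab with h | h
      · exact hinj a b h (by omega) e'
      · exact hinj b a h (by omega) e'.symm
    have hhT : (Δ.run w y D i T).head? = some true := by rw [hT]; rfl
    have hG : Gd Δ w y P.Z D i (2 ^ (P.Z + 1)) := by
      refine ⟨fun t _ => ?_, fun t _ hne => ?_⟩
      · rcases Nat.lt_or_ge t T with h | h
        · exact h2 t (by omega)
        · rw [run_keep hhT t h]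
          exact h2 T hTT
      · rcases Nat.lt_or_ge t T with h | h
        · exact h3 t (by omega)
        · rw [run_keep hhT t h] at hne
          exact absurd hhT hne
    have hN := (dr_eq hc D i (2 ^ (P.Z + 1))).1 hG
    rw [run_keep hhT _ hlt.le, hT, hnum] at hN
    unfold Prm.lk
    rw [hN, show (3 + 4 * num v) % 4 = 3 by omega, show (3 + 4 * num v) / 4 = num v by omega]
    rfl
  · intro h
    unfold Prm.lk at h
    have hv := num_pos v
    by_cases h3 : P.dr (num D) (num i) (2 ^ (P.Z + 1)) % 4 = 3
    · rw [h3] at h
      have h4 : P.dr (num D) (num i) (2 ^ (P.Z + 1)) / 4 = num v := h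
      have h5 : P.dr (num D) (num i) (2 ^ (P.Z + 1)) = num (true :: true :: v) := by
        rw [hnum]
        omega
      have hG := (dr_eq hc D i (2 ^ (P.Z + 1))).2 (by rw [h5]; exact (num_pos _).ne')
      rw [(dr_eq hc D i (2 ^ (P.Z + 1))).1 hG] at h5
      have h6 : Δ.run w y D i (2 ^ (P.Z + 1)) = true :: true :: v :=
        Pool.Agent.Helper65.LinSpace.num_injective h5
      classical
      have hex : ∃ T, Δ.run w y D i T = true :: true :: v := ⟨_, h6⟩
      obtain ⟨T, hT, hmin⟩ : ∃ T, Δ.run w y D i T = true :: true :: v ∧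
          ∀ t < T, Δ.run w y D i t ≠ true :: true :: v :=
        ⟨Nat.find hex, Nat.find_spec hex, fun t ht => Nat.find_min hex ht⟩
      have hTT : T ≤ 2 ^ (P.Z + 1) := by
        by_contra hcon
        exact hmin _ (by omega) h6
      refine ⟨T, hT, fun t ht => hG.1 t (by omega), fun t ht => hG.2 t (by omega) fun hh => ?_⟩
      apply hmin t ht
      rw [← run_keep hh T ht.le, hT]
    · have h4 : eq01 (P.dr (num D) (num i) (2 ^ (P.Z + 1)) % 4) 3 = 0 := if_neg h3
      rw [h4, ifz_zero] at h
      omega

end

end Pool.Agent.Helper31.SusD
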