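import Pool.Agent.Helper31.SusD.Cmp
import Pool.Agent.Helper31.SusD.Dec

/-!
# The tests of the greedy sequence
-/

namespace Pool.Agent.Helper31.SusD

open Pool.Agent.Helper65.LinSpace Pool.Agent.Helper78.Mpc Pool.Agent.Helper28.Ram Finset
open Pool.Agent.Helper81.Sus2 (Decomp)
open Pool.Agent.Helper28.Sus (gf chs)
open Pool.Agent.Helper94.Sus (capN_cases capN_of_lt capN_mono num_lt_pow length_le_of_num_lt)

/-- `1` if the check of the register `a` is necessary and not successful. -/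
def bad (P : Prm) (F : ℕ → ℕ → ℕ → ℕ → ℕ) (c d τ a : ℕ) : ℕ :=
  ifz a 0 (ifz (Prm.ro a) (1 - lt01 0 (P.cl d a) * eq01 (F c d τ a) 1) 0)

/-- `1` if the configuration `d` describes the configuration which is reached from the configuration
`c` after `τ > 0` steps; `F c d τ a` is the result of the simulation. -/
def chk (P : Prm) (F : ℕ → ℕ → ℕ → ℕ → ℕ) (c τ d : ℕ) : ℕ :=
  lt01 0 τ * (lt01 1 d * (eq01 (F c d τ 0) 1 *
    eq01 (∑ a ∈ range (2 ^ (P.S + 1)), bad P F c d τ a) 0))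

/-- `1` if the state is accepting after `τ` steps. -/
def ac (F : ℕ → ℕ → ℕ → ℕ → ℕ) (c τ : ℕ) : ℕ := eq01 (F c 0 τ 0) 1

theorem eq01_ne {x y : ℕ} : eq01 x y ≠ 0 ↔ x = y := by
  unfold eq01
  split_ifs with h
  · simp [h]
  · simp [h]

theorem lt01_ne {x y : ℕ} : lt01 x y ≠ 0 ↔ x < y := by
  unfold lt01
  split_ifs with h
  · simp [h]
  · simp [h]

theorem eq01_le (x y : ℕ) : eq01 x y ≤ 1 := by
  unfold eq01
  split_ifs <;> omega

theorem lt01_le (x y : ℕ) : lt01 x y ≤ 1 := by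
  unfold lt01
  split_ifs <;> omega

theorem bad_le (P : Prm) (F : ℕ → ℕ → ℕ → ℕ → ℕ) (c d τ a : ℕ) : bad P F c d τ a ≤ 1 := by
  unfold bad ifz
  split_ifs <;> omega

theorem mul_le_one {a b : ℕ} (ha : a ≤ 1) (hb : b ≤ 1) : a * b ≤ 1 := by
  have := Nat.mul_le_mul ha hb
  omega

theorem chk_le (P : Prm) (F : ℕ → ℕ → ℕ → ℕ → ℕ) (c τ d : ℕ) : chk P F c τ d ≤ 1 := by
  unfold chk
  exact mul_le_one (lt01_le _ _) (mul_le_one (lt01_le _ _) (mul_le_one (eq01_le _ _)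
    (eq01_le _ _)))

theorem ac_le (F : ℕ → ℕ → ℕ → ℕ → ℕ) (c τ : ℕ) : ac F c τ ≤ 1 := eq01_le _ _

theorem chk_ne {P : Prm} {F : ℕ → ℕ → ℕ → ℕ → ℕ} {c τ d : ℕ} : chk P F c τ d ≠ 0 ↔
    0 < τ ∧ 1 < d ∧ F c d τ 0 = 1 ∧ ∀ a < 2 ^ (P.S + 1), bad P F c d τ a = 0 := by
  unfold chk
  rw [mul_ne_zero_iff, mul_ne_zero_iff, mul_ne_zero_iff, lt01_ne, lt01_ne, eq01_ne, eq01_ne,
    sum_eq_zero_iff]
  simp only [mem_range]

theorem bad_zero {P : Prm} {F : ℕ → ℕ → ℕ → ℕ → ℕ} {c d τ : ℕ} {i : List Bool}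
    (hi : i.head? ≠ some false) (h : bad P F c d τ (num i) = 0) :
    P.cl d (num i) ≠ 0 ∧ F c d τ (num i) = 1 := by
  unfold bad at h
  rw [ifz_ne (num_pos _).ne', ro_not hi, ifz_zero] at h
  have h1 : lt01 0 (P.cl d (num i)) * eq01 (F c d τ (num i)) 1 ≠ 0 := by omega
  rw [mul_ne_zero_iff, lt01_ne, eq01_ne] at h1
  exact ⟨h1.1.ne', h1.2⟩

section

variable {A : DBM} {Δ : Decomp} {w y : List Bool} {P : Prm} {F : ℕ → ℕ → ℕ → ℕ → ℕ}
  {c d τ t₀ : ℕ}

/-- Soundness of the test. -/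
theorem chk_sound (H : Cod A Δ w y P) (hSV : P.S ≤ P.V)
    (hF : ∀ c d τ a, F c d τ a = 1 → ∃ T, (P.wf τ c d a T).1 = 1)
    (hR : Rep A w y P c (A.conf w y t₀)) (h : chk P F c τ d ≠ 0) :
    Rep A w y P d (A.conf w y (t₀ + τ)) ∧ 0 < τ := by
  rw [chk_ne] at h
  obtain ⟨h1, h2, h3, h4⟩ := h
  have hd : d ≠ 0 := by omega
  obtain ⟨T, hT⟩ := hF _ _ _ _ h3
  obtain ⟨g1, _, g3⟩ := snd H hSV hR (by positivity) hT
  refine ⟨⟨hd, (g3 hd).1, g1, fun i hi => conf_ro hi _, fun i hi hh => ?_⟩, h1⟩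
  obtain ⟨k1, k2⟩ := bad_zero hh (h4 (num i) (num_lt_pow hi))
  obtain ⟨T', hT'⟩ := hF _ _ _ _ k2
  obtain ⟨_, _, g6⟩ := snd H hSV hR (num_lt_pow hi) hT'
  exact (g6 hd).2 i rfl k1

/-- Soundness of the test for acceptance. -/
theorem ac_sound (H : Cod A Δ w y P) (hSV : P.S ≤ P.V)
    (hF : ∀ c d τ a, F c d τ a = 1 → ∃ T, (P.wf τ c d a T).1 = 1)
    (hR : Rep A w y P c (A.conf w y t₀)) (h : ac F c τ ≠ 0) : A.AcceptsAt w y (t₀ + τ) := by
  unfold ac at h
  rw [eq01_ne] at h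
  obtain ⟨T, hT⟩ := hF _ _ _ _ h
  exact (snd H hSV hR (by positivity) hT).2.1 rfl

/-- Every number between `1` and `2 ^ (S + 1)` is the number of a word. -/
theorem exists_num {a : ℕ} (h : a ≠ 0) : ∃ i : List Bool, num i = a := by
  induction a using Nat.strong_induction_on with
  | _ a ih =>
    rcases Nat.lt_or_ge a 2 with h1 | h1
    · refine ⟨[], ?_⟩
      show 1 = a
      omega
    · obtain ⟨i, hi⟩ := ih (a / 2) (by omega) (by omega)
      rcases Nat.mod_two_eq_zero_or_one a with h2 | h2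
      · refine ⟨false :: i, ?_⟩
        show false.toNat + 2 * num i = a
        rw [hi, Bool.toNat_false]
        omega
      · refine ⟨true :: i, ?_⟩
        show true.toNat + 2 * num i = a
        rw [hi, Bool.toNat_true]
        omega

/-- Completeness of the tests. -/
theorem win (H : Cod A Δ w y P) (hSV : P.S ≤ P.V) {X x r : ℕ}
    (hF : ∀ c d τ a, (∀ T, τ < T → (P.wf τ c d a T).1 = 1) → τ ≤ X →
      chs (P.wA τ a) (P.wN τ d a) P.wQ P.wW (P.w0 c) (P.cm c) (τ + 1) ≤ x → F c d τ a = 1)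
    (hfit : A.Fits w y r P.S P.Z) (hr : t₀ + τ ≤ r) (hR : Rep A w y P c (A.conf w y t₀))
    (hV : 2 + 2 ^ (P.S + 1) * (τ + 1) ≤ 2 ^ (P.V + 1)) (hX : τ ≤ X)
    (hx : A.msgs w y t₀ (t₀ + τ) ≤ x) :
    (A.AcceptsAt w y (t₀ + τ) → ac F c τ ≠ 0) ∧
    (0 < τ → 1 < d → Rep A w y P d (A.conf w y (t₀ + τ)) → chk P F c τ d ≠ 0) := by
  have hlen : ∀ t ≤ τ, (A.conf w y (t₀ + t)).1.length ≤ P.S ∧
      (A.addr (A.conf w y (t₀ + t)).1).length ≤ P.S ∧
      ∀ i : List Bool, i.length ≤ P.S → ((A.conf w y (t₀ + t)).2 i).length ≤ P.Z :=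
    fun t ht => hfit _ (by omega)
  have hpos : 0 < 2 ^ (P.S + 1) := by positivity
  constructor
  · intro hacc
    unfold ac
    rw [eq01_ne]
    obtain ⟨g1, g2⟩ := cmp (d := 0) (a := 0) H hSV hR hlen hV hpos (fun _ => hacc)
      (fun h => absurd rfl h)
    exact hF _ _ _ _ g1 hX (g2.trans hx)
  · intro hτ hd hRd
    rw [chk_ne]
    have hd0 : d ≠ 0 := by omega
    have hst : P.cq d = num (A.conf w y (t₀ + τ)).1 := hRd.q.symm
    refine ⟨hτ, hd, ?_, ?_⟩
    · obtain ⟨g1, g2⟩ := cmp (d := d) (a := 0) H hSV hR hlen hV hpos (fun h => absurd h hd0)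
        (fun _ => ⟨hst, Or.inl rfl⟩)
      exact hF _ _ _ _ g1 hX (g2.trans hx)
    · intro a ha
      rcases Nat.eq_zero_or_pos a with h0 | h0
      · unfold bad
        rw [h0, ifz_zero]
      · obtain ⟨i, hi⟩ := exists_num h0.ne'
        have hil : i.length ≤ P.S := length_le_of_num_lt (by rw [hi]; exact ha)
        unfold bad
        rw [ifz_ne h0.ne']
        by_cases hh : i.head? = some false
        · rcases i with _ | ⟨b, v⟩
          · simp at hh
          · have hb : b = false := by simpa using hh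
            subst hb
            rw [← hi, ro_false, ifz_ne one_ne_zero]
        · have hcl : P.cl d a = num ((A.conf w y (t₀ + τ)).2 i) := by
            rw [← hi]
            exact hRd.cl i hil hh
          obtain ⟨g1, g2⟩ := cmp (d := d) (a := a) H hSV hR hlen hV ha (fun h => absurd h hd0)
            (fun _ => ⟨hst, Or.inr ⟨i, hil, hi.symm, hcl⟩⟩)
          have h3 : F c d τ a = 1 := hF _ _ _ _ g1 hX (g2.trans hx)
          have h4 : lt01 0 (P.cl d a) = 1 := by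
            rw [hcl, lt01, if_pos (num_pos _)]
          have h5 : Prm.ro a = 0 := by
            rw [← hi]
            exact ro_not hh
          rw [h5, ifz_zero, h3, h4, eq01, if_pos rfl]

/-- A short description gives a configuration. -/
theorem exists_config (H : Cod A Δ w y P) {r t z : ℕ} (hfit : A.Fits w y r P.S P.Z) (ht : t ≤ r)
    (hz : z ≤ P.z) (h : A.Short Δ w y P.S P.Z z t) :
    ∃ d < P.cz, 1 < d ∧ Rep A w y P d (A.conf w y t) := by
  obtain ⟨D, hD1, hD2⟩ := h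
  obtain ⟨hq, _, hc⟩ := hfit t ht
  have hqlt : num (A.conf w y t).1 < 2 ^ (P.S + 1) := num_lt_pow hq
  have hDlt : num D < 2 ^ (P.z + 1) := num_lt_pow (hD1.trans hz)
  set C := 2 + (num (A.conf w y t).1 + 2 ^ (P.S + 1) * num D) with hC
  have hC1 : C ≠ 1 := by omega
  have e1 : (C - 2) / 2 ^ (P.S + 1) = num D := by
    rw [hC, Nat.add_sub_cancel_left, Nat.add_mul_div_left _ _ (by positivity),
      Nat.div_eq_of_lt hqlt, zero_add]
  have e2 : (C - 2) % 2 ^ (P.S + 1) = num (A.conf w y t).1 := by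
    rw [hC, Nat.add_sub_cancel_left, Nat.add_mul_mod_self_left, Nat.mod_eq_of_lt hqlt]
  refine ⟨C, ?_, by omega, ⟨by omega, ?_, hq, fun i hi => conf_ro hi _, ?_⟩⟩
  · unfold Prm.cz
    have h1 : num (A.conf w y t).1 + 2 ^ (P.S + 1) * num D < 2 ^ (P.S + 1) * (num D + 1) := by
      rw [mul_add, mul_one]
      omega
    have h2 : 2 ^ (P.S + 1) * (num D + 1) ≤ 2 ^ (P.S + 1) * 2 ^ (P.z + 1) :=
      Nat.mul_le_mul_left _ hDlt
    omega
  · unfold Prm.cq
    rw [eq01, if_neg hC1, ifz_zero, e2]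
  · intro i hi hh
    unfold Prm.cl
    rw [eq01, if_neg hC1, ifz_zero, e1, (dec H D i _).1 (hD2 i hi hh)]
    exact capN_num (hc i hi)

/-- The start. -/
theorem rep_start (H : Cod A Δ w y P) (h : P.cq 1 ≠ 0) : Rep A w y P 1 (A.conf w y 0) := by
  have e1 : P.cq 1 = capN P.S (num A.start) := by
    unfold Prm.cq
    rw [eq01, if_pos rfl, ifz_ne one_ne_zero, H.hst]
  rw [e1] at h
  refine ⟨one_ne_zero, ?_, len_of_capN h, fun i hi => conf_ro hi _, fun i _ hi => ?_⟩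
  · rw [e1]
    exact (capN_ne h).symm
  · have e3 : A.mem0 w y i = [] := by
      rcases i with _ | ⟨b, i⟩
      · rfl
      · cases b
        · exact absurd rfl hi
        · rfl
    unfold Prm.cl
    rw [eq01, if_pos rfl, ifz_ne one_ne_zero]
    show 1 = num (A.mem0 w y i)
    rw [e3]
    rfl

end

end Pool.Agent.Helper31.SusD
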