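import Pool.Agent.Helper31.SusD.Snd

/-!
# Completeness of the machine on numbers
-/

namespace Pool.Agent.Helper31.SusD

open Pool.Agent.Helper65.LinSpace Pool.Agent.Helper78.Mpc Pool.Agent.Helper28.Ram Finset
open Pool.Agent.Helper81.Sus2 (Decomp)
open Pool.Agent.Helper28.Sus (gf chs)
open Pool.Agent.Helper94.Sus (capN_cases capN_of_lt capN_mono num_lt_pow length_le_of_num_lt)

variable {A : DBM} {Δ : Decomp} {w y : List Bool} {P : Prm} {τ c d a t₀ : ℕ}

theorem wf_fst (t : ℕ) : (P.wf τ c d a (t + 1)).1 =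
    P.wN τ d a (P.wf τ c d a t).1 ((P.wf τ c d a t).2 (P.wA τ a (P.wf τ c d a t).1)) := rfl

theorem wf_snd (t x : ℕ) : (P.wf τ c d a (t + 1)).2 x =
    P.wW x (P.wf τ c d a (t + 1)).1 ((P.wf τ c d a t).2 x) := rfl

/-- Up to `τ` steps the machine on numbers follows the computation. -/
theorem inv_cmp (H : Cod A Δ w y P) (hSV : P.S ≤ P.V) (hR : Rep A w y P c (A.conf w y t₀))
    (hlen : ∀ t ≤ τ, (A.conf w y (t₀ + t)).1.length ≤ P.S ∧
      (A.addr (A.conf w y (t₀ + t)).1).length ≤ P.S ∧
      ∀ i : List Bool, i.length ≤ P.S → ((A.conf w y (t₀ + t)).2 i).length ≤ P.Z)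
    (hV : 2 + 2 ^ (P.S + 1) * (τ + 1) ≤ 2 ^ (P.V + 1)) :
    ∀ t ≤ τ, (P.wf τ c d a t).1 = P.enc (num (A.conf w y (t₀ + t)).1) t ∧
      ∀ i : List Bool, i.length ≤ P.S →
        (P.wf τ c d a t).2 (num i) = num ((A.conf w y (t₀ + t)).2 i) := by
  intro t
  induction t with
  | zero =>
    intro _
    constructor
    · show capN P.V (P.enc (P.cq c) 0) = P.enc (num (A.conf w y t₀).1) 0
      rw [← hR.q]
      exact capN_of_lt (enc_lt P (num_lt_pow hR.len) (Nat.zero_le τ) hV)
    · intro i hi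
      show P.cm c (num i) = num ((A.conf w y t₀).2 i)
      rw [cm_spec H hR i hi]
      exact capN_num ((hlen 0 (Nat.zero_le _)).2.2 i hi)
  | succ t ih =>
    intro ht
    obtain ⟨ih1, ih2⟩ := ih (by omega)
    set q := (A.conf w y (t₀ + t)).1 with hqdef
    set M := (A.conf w y (t₀ + t)).2 with hMdef
    set q' := (A.conf w y (t₀ + (t + 1))).1 with hq'def
    have hqlen : q.length ≤ P.S := (hlen t (by omega)).1
    have hq'len : q'.length ≤ P.S := (hlen (t + 1) ht).1
    have hq : num q < 2 ^ (P.S + 1) := num_lt_pow hqlen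
    have hq' : num q' < 2 ^ (P.S + 1) := num_lt_pow hq'len
    have halen : (A.addr q).length ≤ P.S := (hlen t (by omega)).2.1
    have hA : P.wA τ a (P.enc (num q) t) = num (A.addr q) := by
      unfold Prm.wA
      rw [lt_enc P, ifz_ne one_ne_zero, dt_enc P hq, eq01,
        if_neg (by omega), ifz_zero, dq_enc P hq, H.hA q hqlen, if_pos halen]
      exact capN_num (halen.trans hSV)
    have hv : (P.wf τ c d a t).2 (P.wA τ a (P.wf τ c d a t).1) = num (M (A.addr q)) := by
      rw [ih1, hA]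
      exact ih2 _ halen
    have hMlen : (M (A.addr q)).length ≤ P.Z := (hlen t (by omega)).2.2 _ halen
    have hfN : P.fN (num q) (num (M (A.addr q))) = num q' := by
      rw [H.hN q _ hqlen hMlen]
      have e1 : q' = A.next (sd q ++ false :: M (A.addr q)) := rfl
      rw [← e1, if_pos hq'len]
    have hN : P.wN τ d a (P.enc (num q) t) (num (M (A.addr q))) = P.enc (num q') (t + 1) := by
      unfold Prm.wN
      rw [lt_enc P, ifz_ne one_ne_zero, dt_enc P hq, eq01,
        if_neg (by omega), ifz_zero, dq_enc P hq, hfN, H.hA q hqlen,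
        if_pos halen, ifz_ne (mul_ne_zero (num_pos _).ne' (num_pos _).ne')]
      exact capN_of_lt (enc_lt P hq' ht hV)
    have hE : (P.wf τ c d a (t + 1)).1 = P.enc (num q') (t + 1) := by
      rw [wf_fst, hv, ih1]
      exact hN
    refine ⟨hE, ?_⟩
    intro i hi
    have hMi : (A.conf w y (t₀ + (t + 1))).2 i = A.upd q' i (M i) := rfl
    rw [wf_snd, hE, ih2 i hi, hMi]
    have hlen' : (A.upd q' i (M i)).length ≤ P.Z := by
      rw [← hMi]
      exact (hlen (t + 1) ht).2.2 i hi
    have hMil : (M i).length ≤ P.Z := (hlen t (by omega)).2.2 i hi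
    unfold Prm.wW
    rw [lt_enc P, ifz_ne one_ne_zero, dq_enc P hq', H.hG q' hq'len]
    by_cases hm : A.msg q' ∧ i.head? ≠ some false
    · have e1 : A.upd q' i (M i) = A.write (sd q' ++ (sd i ++ M i)) := by
        unfold DBM.upd
        rw [if_pos hm]
      rw [hm.1, ro_not hm.2]
      simp only [Bool.toNat_true, Nat.sub_zero, mul_one]
      rw [ifz_ne one_ne_zero, H.hW q' i _ hq'len hi hMil, ← e1, if_pos hlen']
      exact capN_num hlen'
    · have e1 : A.upd q' i (M i) = M i := by
        unfold DBM.upd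
        rw [if_neg hm]
      have hz' : (A.msg q').toNat * (1 - Prm.ro (num i)) = 0 := by
        by_cases h1 : A.msg q' = true
        · have h2 : i.head? = some false := by
            by_contra h3
            exact hm ⟨h1, h3⟩
          rcases i with _ | ⟨b, v⟩
          · simp at h2
          · have hb : b = false := by simpa using h2
            subst hb
            rw [ro_false]
            simp
        · have : A.msg q' = false := by simpa using h1
          rw [this]
          simp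
      rw [hz', ifz_zero, e1]
      exact capN_num hMil

theorem cmp (H : Cod A Δ w y P) (hSV : P.S ≤ P.V) (hR : Rep A w y P c (A.conf w y t₀))
    (hlen : ∀ t ≤ τ, (A.conf w y (t₀ + t)).1.length ≤ P.S ∧
      (A.addr (A.conf w y (t₀ + t)).1).length ≤ P.S ∧
      ∀ i : List Bool, i.length ≤ P.S → ((A.conf w y (t₀ + t)).2 i).length ≤ P.Z)
    (hV : 2 + 2 ^ (P.S + 1) * (τ + 1) ≤ 2 ^ (P.V + 1)) (ha : a < 2 ^ (P.S + 1))
    (hd0 : d = 0 → (A.conf w y (t₀ + τ)).1.head? = some true)
    (hd1 : d ≠ 0 → P.cq d = num (A.conf w y (t₀ + τ)).1 ∧ (a = 0 ∨ ∃ i : List Bool,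
      i.length ≤ P.S ∧ a = num i ∧ P.cl d a = num ((A.conf w y (t₀ + τ)).2 i))) :
    (∀ T, τ < T → (P.wf τ c d a T).1 = 1) ∧
    chs (P.wA τ a) (P.wN τ d a) P.wQ P.wW (P.w0 c) (P.cm c) (τ + 1) ≤
      A.msgs w y t₀ (t₀ + τ) := by
  have inv := inv_cmp (d := d) (a := a) H hSV hR hlen hV
  have cap1 : capN P.V 1 = 1 := capN_of_lt (Nat.one_lt_two_pow (by omega))
  -- the final check
  have fin1 : (P.wf τ c d a (τ + 1)).1 = 1 := by
    obtain ⟨h1, h2⟩ := inv τ le_rfl
    have hq := num_lt_pow (hlen τ le_rfl).1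
    have hA : P.wA τ a (P.enc (num (A.conf w y (t₀ + τ)).1) τ) = a := by
      unfold Prm.wA
      rw [lt_enc P, ifz_ne one_ne_zero, dt_enc P hq, eq01, if_pos rfl, ifz_ne one_ne_zero]
      exact capN_mono hSV ha
    rw [wf_fst, h1, hA]
    unfold Prm.wN
    rw [lt_enc P, ifz_ne one_ne_zero, dt_enc P hq]
    have e1 : eq01 τ τ = 1 := by rw [eq01, if_pos rfl]
    rw [e1, ifz_ne one_ne_zero]
    have e2 : P.wF d a (P.enc (num (A.conf w y (t₀ + τ)).1) τ) ((P.wf τ c d a τ).2 a) = 1 := by
      unfold Prm.wF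
      rw [dq_enc P hq]
      rcases Nat.eq_zero_or_pos d with hd | hd
      · rw [hd, ifz_zero]
        exact (accN_num _).2 (hd0 hd)
      · obtain ⟨h3, h4⟩ := hd1 hd.ne'
        rw [ifz_ne hd.ne', h3, eq01, if_pos rfl, one_mul]
        rcases h4 with h4 | ⟨i, hi1, hi2, hi4⟩
        · rw [h4, ifz_zero]
        · have ha0 : a ≠ 0 := by rw [hi2]; exact (num_pos _).ne'
          rw [ifz_ne ha0]
          have h5 : (P.wf τ c d a τ).2 a = num ((A.conf w y (t₀ + τ)).2 i) := by
            rw [hi2]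
            have := h2 i hi1
            rw [hi2] at this
            exact this
          rw [h5, hi4, eq01, if_pos rfl]
    rw [e2]
    exact cap1
  have fin2 : ∀ T, τ < T → (P.wf τ c d a T).1 = 1 := by
    intro T hT
    induction T, hT using Nat.le_induction with
    | base => exact fin1
    | succ T _ ih =>
      rw [wf_fst, ih]
      exact wN_small le_rfl
  refine ⟨fin2, ?_⟩
  classical
  unfold chs DBM.msgs
  rw [← Set.ncard_coe_finset]
  refine Set.ncard_le_ncard_of_injOn (fun t => t₀ + t) ?_ (fun a _ b _ h => by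
    have h' : t₀ + a = t₀ + b := h
    omega) ((Set.finite_lt_nat (t₀ + τ)).subset fun t ht => ht.2.1)
  intro t ht
  rw [mem_coe, mem_filter, mem_range] at ht
  have ht2 : P.wQ (P.wf τ c d a (t + 1)).1 = 0 := ht.2
  rcases Nat.lt_or_ge t τ with h | h
  · refine ⟨Nat.le_add_right _ _, by show t₀ + t < t₀ + τ; omega, ?_⟩
    rw [(inv (t + 1) h).1] at ht2
    unfold Prm.wQ at ht2
    rw [lt_enc P, ifz_ne one_ne_zero, dq_enc P (num_lt_pow (hlen (t + 1) h).1),
      H.hG _ (hlen (t + 1) h).1] at ht2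
    by_contra hcon
    have h3 : A.msg (A.conf w y (t₀ + (t + 1))).1 = false := Bool.eq_false_iff.2 hcon
    rw [h3] at ht2
    simp at ht2
  · have : t = τ := by omega
    subst this
    rw [fin1] at ht2
    exfalso
    unfold Prm.wQ at ht2
    have e1 : lt01 1 1 = 0 := by rw [lt01, if_neg (by omega)]
    rw [e1, ifz_zero] at ht2
    exact one_ne_zero ht2

end Pool.Agent.Helper31.SusD
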