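import Pool.Agent.Helper31.SusD.Num
import Pool.Agent.Helper88.Sus.COD

/-!
# The codes of the functions of a machine
-/

namespace Pool.Agent.Helper31.SusD

open Pool.Agent.Helper65.LinSpace Pool.Agent.Helper78.Mpc Pool.Agent.Helper28.Ram
open Pool.Agent.Helper81.Sus2 (Decomp)
open Pool.Agent.Helper88.Sus (toNat_mod num_single num_nil num_cons num_ne)

theorem length_toList_le (a : Option Bool) : a.toList.length ≤ 1 := by
  cases a <;> simp

/-- The codes of the functions. -/
theorem cod (A : DBM) (Δ : Decomp) : ∃ (e : Cde) (c : ℕ), ∀ (w y : List Bool) (P : Prm),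
    P.toCde = e → P.x = num w → P.y = num y →
    c * (8 * P.S + 8 * P.Z + 16) ≤ P.Λ → c + P.Λ + 8 * P.S + 8 * P.Z + 16 ≤ P.β →
    2 ^ (P.S + 2) ≤ P.B → 2 ^ (P.Z + 2) ≤ P.B → Cod A Δ w y P := by
  obtain ⟨eA, cA, hA⟩ := fnN_spec A.addr_lin
  obtain ⟨eN, cN, hN⟩ := fnN_spec A.next_lin
  obtain ⟨eW, cW, hW⟩ := fnN_spec A.write_lin
  obtain ⟨eG, cG, hG⟩ := fnN_spec A.msg_lin
  obtain ⟨eL, cL, hL⟩ := fnN_spec Δ.addr_lin
  obtain ⟨eX, cX, hX⟩ := fnN_spec Δ.next_lin
  obtain ⟨B0, ini, hini⟩ := exists_ini A.init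
  refine ⟨⟨eA, eN, eW, eG, eL, eX, ini, B0, num A.start⟩, cA + cN + cW + cG + cL + cX, ?_⟩
  intro w y P he hx hy hΛ hβ hB hB'
  have hgood : ∀ (f : List Bool → List Bool) (e c' T : ℕ), c' ≤ cA + cN + cW + cG + cL + cX →
      (∀ (w : List Bool) (S Λ β B : ℕ), c' * (S + w.length + 2) ≤ Λ →
        c' + Λ + S + w.length + 1 ≤ β → 2 ^ (S + 1) ≤ B →
        fnN e S Λ β B (num w) = if (f w).length ≤ S then num (f w) else 0) →
      T ≤ P.S + P.Z + 1 → 2 ^ (T + 1) ≤ P.B → ∀ u : List Bool,
        u.length ≤ 4 * P.S + 2 * P.Z + 8 →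
        fnN e T P.Λ P.β P.B (num u) = if (f u).length ≤ T then num (f u) else 0 := by
    intro f e c' T hc' hf hT hTB u hu
    refine hf u _ _ _ _ ?_ ?_ hTB
    · refine le_trans ?_ hΛ
      exact Nat.mul_le_mul hc' (by omega)
    · omega
  have pS : 2 ^ (P.S + 1) ≤ P.B := le_trans (Nat.pow_le_pow_right (by norm_num) (by omega)) hB
  have pZ : 2 ^ (P.Z + 1) ≤ P.B := le_trans (Nat.pow_le_pow_right (by norm_num) (by omega)) hB'
  have p1 : 2 ^ (1 + 1) ≤ P.B := le_trans (Nat.pow_le_pow_right (by norm_num) (by omega)) hB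
  have gA := hgood A.addr eA cA P.S (by omega) hA (by omega) pS
  have gN := hgood A.next eN cN P.S (by omega) hN (by omega) pS
  have gW := hgood A.write eW cW P.Z (by omega) hW (by omega) pZ
  have gG := hgood _ eG cG 1 (by omega) hG (by omega) p1
  have gL := hgood Δ.addr eL cL P.Z (by omega) hL (by omega) pZ
  have gX := hgood Δ.next eX cX P.Z (by omega) hX (by omega) pZ
  have eqA : P.eA = eA := congrArg Cde.eA he
  have eqN : P.eN = eN := congrArg Cde.eN he
  have eqW : P.eW = eW := congrArg Cde.eW he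
  have eqG : P.eG = eG := congrArg Cde.eG he
  have eqL : P.eL = eL := congrArg Cde.eL he
  have eqX : P.eX = eX := congrArg Cde.eX he
  have eqI : P.ini = ini := congrArg Cde.ini he
  have eqB : P.B0 = B0 := congrArg Cde.B0 he
  have eqst : P.st = num A.start := congrArg Cde.st he
  refine ⟨?_, ?_, ?_, ?_, ?_, ?_, eqst, ?_, hx, hy⟩
  · intro q hq
    unfold Prm.fA
    rw [eqA]
    exact gA q (by omega)
  · intro q hq
    unfold Prm.fG
    rw [eqG, gG q (by omega), if_pos (by simp), num_single, toNat_mod]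
  · intro q v hq hv
    unfold Prm.fN
    rw [ifz_ne (num_ne v), sdN_num]
    have h1 : 2 * num v = num (false :: v) := by
      rw [num_cons]
      simp
    rw [h1, catN_num, eqN]
    refine gN _ ?_
    rw [List.length_append, length_sd, List.length_cons]
    omega
  · intro q i c hq hi hc
    unfold Prm.fW
    rw [sdN_num, sdN_num, catN_num, catN_num, eqW]
    refine gW _ ?_
    rw [List.length_append, List.length_append, length_sd, length_sd]
    omega
  · intro σ hσ
    unfold Prm.fL
    rw [eqL]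
    exact gL σ (by omega)
  · intro σ a b c hσ
    unfold Prm.fX
    rw [sdN_num, catN_num, eqX]
    refine gX _ ?_
    have h1 := length_toList_le a
    have h2 := length_toList_le b
    have h3 := length_toList_le c
    rw [List.length_append, List.length_append, List.length_append, length_sd, length_sd,
      length_sd]
    omega
  · intro a b
    rw [eqB, eqI]
    exact hini a b

end Pool.Agent.Helper31.SusD
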