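import Pool.Agent.Helper81.Sus2.Defs

/-!
# Deterministic machines with messages, and descriptions of their memory: definitions
-/

namespace Pool.Agent.Helper31.SusD

open Pool.Agent.Helper65.LinSpace Pool.Agent.Helper78.Mpc Pool.Agent.Helper28.Ram
open Pool.Agent.Helper81.Sus2 (Decomp)

/-- A deterministic machine whose registers are changed by messages. Its state is a word and its
registers, which are named by words, contain words. The registers with the names `0 u` are
read-only; such a register contains a word which depends on the letters number `u` (in binary) of the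
input word and of the advice word. All other registers are empty at the start. In one step the
machine in the state `q` reads the content `v` of the register `addr q` and goes into the state
`next (⟨q⟩ 0 v)`, where `⟨q⟩` is the self-delimiting code of `q`. If the new state `q'` is a message
(`msg q'` is true), then all registers which are not read-only change their contents: the new content
of the register `i` is `write (⟨q'⟩ ⟨i⟩ v)`, where `v` is its old content. The functions are computed
in linear space. -/
structure DBM where
  start : List Bool
  init : Option Bool → Option Bool → List Bool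
  addr : List Bool → List Bool
  next : List Bool → List Bool
  write : List Bool → List Bool
  msg : List Bool → Bool
  addr_lin : LinComp addr
  next_lin : LinComp next
  write_lin : LinComp write
  msg_lin : LinComp fun u => [msg u]

/-- The contents of the registers at the start, `w` being the input word and `y` the advice word. -/
def DBM.mem0 (A : DBM) (w y : List Bool) : List Bool → List Bool
  | false :: u => A.init w[bval u]? y[bval u]?
  | _ => []

/-- The content of the register `i` after the state `q` was reached, `v` being its old content. -/
def DBM.upd (A : DBM) (q i v : List Bool) : List Bool :=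
  if A.msg q ∧ i.head? ≠ some false then A.write (sd q ++ (sd i ++ v)) else v

/-- One step. -/
def DBM.step (A : DBM) (c : List Bool × (List Bool → List Bool)) :
    List Bool × (List Bool → List Bool) :=
  let q := A.next (sd c.1 ++ false :: c.2 (A.addr c.1))
  (q, fun i => A.upd q i (c.2 i))

/-- The state and the contents of the registers after `t` steps. -/
def DBM.conf (A : DBM) (w y : List Bool) : ℕ → List Bool × (List Bool → List Bool)
  | 0 => (A.start, A.mem0 w y)
  | t + 1 => A.step (A.conf w y t)

/-- The first letter of the state after `r` steps is `1`. -/
def DBM.AcceptsAt (A : DBM) (w y : List Bool) (r : ℕ) : Prop :=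
  (A.conf w y r).1.head? = some true

/-- Up to the time `r`, the state and the name of the register which is read are words of length at
most `s`, and the contents of all registers with such names are words of length at most `a`. -/
def DBM.Fits (A : DBM) (w y : List Bool) (r s a : ℕ) : Prop :=
  ∀ t ≤ r, (A.conf w y t).1.length ≤ s ∧ (A.addr (A.conf w y t).1).length ≤ s ∧
    ∀ i : List Bool, i.length ≤ s → ((A.conf w y t).2 i).length ≤ a

/-- The number of messages from the time `t` to the time `t'`. -/
noncomputable def DBM.msgs (A : DBM) (w y : List Bool) (t t' : ℕ) : ℕ :=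
  {i : ℕ | t ≤ i ∧ i < t' ∧ A.msg (A.conf w y (i + 1)).1}.ncard

/-- The memory at the time `t` (the contents of all registers, read-only registers excluded, with
names of at most `s` letters) has a description of at most `z` bits. -/
def DBM.Short (A : DBM) (Δ : Decomp) (w y : List Bool) (s a z t : ℕ) : Prop :=
  ∃ d : List Bool, d.length ≤ z ∧ ∀ i : List Bool, i.length ≤ s → i.head? ≠ some false →
    Δ.Says w y a d i ((A.conf w y t).2 i)

/-- The machine accepts at some time `r`, with the following bounds, where `n` is the length of the
input word: states and names have at most `s` bits, contents of registers at most `a` bits; if the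
memory has no description of at most `c n` bits at the times strictly between `t` and `t' ≤ r`, then
there are at most `x` messages from the time `t` to the time `t'`, and `t' - t` is at most
`2 ^ h (x + 1)` or `s < h`. For `l = h + ⌊log₂ n⌋ + 1`: `x (s + l) l ^ 2 ≤ C (n + 1) ^ (3 / 2)`,
`(s + l) (h + 1) l ≤ C (n + 1) ^ (1 / 2)`, and `a l ^ 2 ≤ C (n + 1)`. -/
def DBM.Within (A : DBM) (Δ : Decomp) (c : ℕ) (C : ℝ) (w y : List Bool) : Prop :=
  ∃ r s a x h : ℕ, A.AcceptsAt w y r ∧ A.Fits w y r s a ∧
    (∀ t t' : ℕ, t ≤ t' → t' ≤ r →
      (∀ u, t < u → u < t' → ¬A.Short Δ w y s a (c * w.length) u) →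
      A.msgs w y t t' ≤ x ∧ (t' ≤ t + 2 ^ h * (x + 1) ∨ s < h)) ∧
    (x : ℝ) * ((s : ℝ) + ((h : ℝ) + ((Nat.log 2 w.length : ℝ) + 1))) *
        ((h : ℝ) + ((Nat.log 2 w.length : ℝ) + 1)) ^ 2 ≤ C * ((w.length : ℝ) + 1) ^ ((3 : ℝ) / 2) ∧
    ((s : ℝ) + ((h : ℝ) + ((Nat.log 2 w.length : ℝ) + 1))) * ((h : ℝ) + 1) *
        ((h : ℝ) + ((Nat.log 2 w.length : ℝ) + 1)) ≤ C * ((w.length : ℝ) + 1) ^ ((1 : ℝ) / 2) ∧
    (a : ℝ) * ((h : ℝ) + ((Nat.log 2 w.length : ℝ) + 1)) ^ 2 ≤ C * ((w.length : ℝ) + 1)

end Pool.Agent.Helper31.SusD
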