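import Pool.Agent.Helper31.SusD.Ls
import Pool.Agent.Helper88.Sus.PRM
import Pool.Agent.Helper5.Sus.PAR

/-!
# The parameters
-/

namespace Pool.Agent.Helper31.SusD

open Pool.Agent.Helper65.LinSpace Pool.Agent.Helper78.Mpc Pool.Agent.Helper28.Ram Finset Filter
open Pool.Agent.Helper28.Long (ZL ZL_le pow_le_CR)
open Pool.Agent.Helper59.Ram (LS_gR LS_CR CM_le_CR pow_ll_le)
open Pool.Agent.Helper81.Tok3 (gH)
open Pool.Agent.Helper88.Sus (gH3_pos gH3_le le01_eq_one le01_le LS_gH3 LS_ZL)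

/-- `1` if the bounds are admissible. -/
def gd (n S Z h : ℕ) : ℕ :=
  le01 (S + h + 5 * ll n + 1) (gH n h) * (le01 ((S + h + 5 * ll n + 2) * h) (gH n h) *
    (le01 (Z + 1) (gH n h * gH n h) * le01 Z (ZL n)))

/-- `1` if the bounds coded by `T` are admissible. -/
def gT (n T : ℕ) : ℕ := gd n (dig (n + 2) T 0) (dig (n + 2) T 1) (dig (n + 2) T 2)

/-- The code of a machine and a decompressor. -/
def cdeN (e : ℕ) : Cde where
  eA := dig (Nat.unpair e).1 (Nat.unpair e).2 0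
  eN := dig (Nat.unpair e).1 (Nat.unpair e).2 1
  eW := dig (Nat.unpair e).1 (Nat.unpair e).2 2
  eG := dig (Nat.unpair e).1 (Nat.unpair e).2 3
  eL := dig (Nat.unpair e).1 (Nat.unpair e).2 4
  eX := dig (Nat.unpair e).1 (Nat.unpair e).2 5
  ini := dig (Nat.unpair e).1 (Nat.unpair e).2 6
  B0 := dig (Nat.unpair e).1 (Nat.unpair e).2 7
  st := dig (Nat.unpair e).1 (Nat.unpair e).2 8

/-- The parameters. -/
def prm (c e x y T : ℕ) : Prm where
  toCde := cdeN e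
  Λ := LW (Nat.log 2 x)
  β := 2 ^ (2 * ll (Nat.log 2 x))
  B := CR x
  x := x
  y := y
  S := gT (Nat.log 2 x) T * dig (Nat.log 2 x + 2) T 0
  Z := gT (Nat.log 2 x) T * dig (Nat.log 2 x + 2) T 1
  V := gT (Nat.log 2 x) T * (dig (Nat.log 2 x + 2) T 0 + dig (Nat.log 2 x + 2) T 2 +
    5 * ll (Nat.log 2 x))
  z := c * Nat.log 2 x

/-- The reduced bound `h`. -/
def hT (n T : ℕ) : ℕ := gT n T * dig (n + 2) T 2

/-- The bound for the numbers. -/
def CS (c x : ℕ) : ℕ := (x + 2) ^ (8000 + c)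

theorem gd_le (n S Z h : ℕ) : gd n S Z h ≤ 1 := by
  unfold gd
  exact Nat.mul_le_mul (le01_le _ _) (Nat.mul_le_mul (le01_le _ _) (Nat.mul_le_mul (le01_le _ _)
    (le01_le _ _)))

theorem gd_cases (n S Z h : ℕ) : gd n S Z h = 0 ∨ gd n S Z h = 1 := by
  have := gd_le n S Z h
  omega

theorem gd_one {n S Z h : ℕ} (hg : gd n S Z h = 1) :
    S + h + 5 * ll n + 1 ≤ gH n h ∧ (S + h + 5 * ll n + 2) * h ≤ gH n h ∧
    Z + 1 ≤ gH n h * gH n h ∧ Z ≤ ZL n := by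
  have h0 : gd n S Z h ≠ 0 := by omega
  unfold gd at h0
  have h1 := left_ne_zero_of_mul h0
  have h2 := right_ne_zero_of_mul h0
  have h3 := left_ne_zero_of_mul h2
  have h4 := right_ne_zero_of_mul h2
  have h5 := left_ne_zero_of_mul h4
  have h6 := right_ne_zero_of_mul h4
  exact ⟨le01_eq_one h1, le01_eq_one h3, le01_eq_one h5, le01_eq_one h6⟩

/-- The reduced bounds. -/
theorem red (n T : ℕ) :
    gT n T * (dig (n + 2) T 0 + dig (n + 2) T 2 + 5 * ll n) + 1 ≤ gH n (hT n T) ∧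
    (gT n T * (dig (n + 2) T 0 + dig (n + 2) T 2 + 5 * ll n) + 2) * hT n T ≤ gH n (hT n T) ∧
    gT n T * dig (n + 2) T 1 + 1 ≤ gH n (hT n T) * gH n (hT n T) ∧
    gT n T * dig (n + 2) T 1 ≤ ZL n := by
  unfold hT
  rcases gd_cases n (dig (n + 2) T 0) (dig (n + 2) T 1) (dig (n + 2) T 2) with h | h
  · have h' : gT n T = 0 := h
    rw [h']
    simp only [zero_mul, zero_add, mul_zero]
    have h1 := gH3_pos n 0
    have h2 : 0 < gH n 0 * gH n 0 := Nat.mul_pos h1 h1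
    exact ⟨h1, Nat.zero_le _, h2, Nat.zero_le _⟩
  · have h' : gT n T = 1 := h
    obtain ⟨h1, h2, h3, h4⟩ := gd_one h
    rw [h']
    simp only [one_mul]
    exact ⟨h1, h2, h3, h4⟩

theorem CR_le_CS (c x : ℕ) : CR x ≤ CS c x := by
  unfold CR CS
  exact Nat.pow_le_pow_right (by omega) (by omega)

theorem two_pow_le_CS (c : ℕ) {x t : ℕ} (h : t ≤ 24 * (Nat.log 2 x + 1)) : 2 ^ t ≤ CS c x :=
  (pow_le_CR h).trans (CR_le_CS c x)

section

variable {α : Type} [Ctx α]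

theorem LS_gT {n T : α → ℕ} (hn : LS n) (hT : LS T) : LS (fun a => gT (n a) (T a)) := by
  have hd : ∀ i : ℕ, LS (fun a => dig (n a + 2) (T a) i) := fun i => by fun_prop
  have hl : LS (fun a => ll (n a)) := by fun_prop
  have hgH : LS (fun a => gH (n a) (dig (n a + 2) (T a) 2)) := LS_gH3 hn (hd 2)
  have hZL : LS (fun a => ZL (n a)) := LS_ZL hn
  have h5 : LS (fun a => 5 * ll (n a)) := LS.mul (LS.const 5) hl
  have hs : LS (fun a => dig (n a + 2) (T a) 0 + dig (n a + 2) (T a) 2 + 5 * ll (n a)) :=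
    LS.add (LS.add (hd 0) (hd 2)) h5
  unfold gT gd
  exact LS.mul (LS.le01 (LS.add hs (LS.const 1)) hgH)
    (LS.mul (LS.le01 (LS.mul (LS.add hs (LS.const 2)) (hd 2)) hgH)
      (LS.mul (LS.le01 (LS.add (hd 1) (LS.const 1)) (LS.mul hgH hgH)) (LS.le01 (hd 1) hZL)))

theorem lsp_prm (c : ℕ) {e x y T : α → ℕ} (he : LS e) (hx : LS x) (hy : LS y) (hT : LS T) :
    LSP (fun z => prm c (e z) (x z) (y z) (T z)) (fun z => CS c (x z)) := by
  have hn : LS (fun z => Nat.log 2 (x z)) := LS.log2 hx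
  have hG : LS (fun z => gT (Nat.log 2 (x z)) (T z)) := LS_gT hn hT
  have hd : ∀ i : ℕ, LS (fun z => dig (Nat.log 2 (x z) + 2) (T z) i) := fun i => by fun_prop
  have hl : LS (fun z => ll (Nat.log 2 (x z))) := by fun_prop
  have hc : ∀ i : ℕ, LS (fun z => dig (Nat.unpair (e z)).1 (Nat.unpair (e z)).2 i) :=
    fun i => by fun_prop
  have hCR : LS (fun z => CR (x z)) := LS_CR hx
  have hgR : ∀ n h, gH n h ≤ n + 1 := fun n h =>
    (gH3_le n h).trans (Pool.Agent.Helper59.Ram.gR_le n)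
  refine ⟨hc 0, hc 1, hc 2, hc 3, hc 4, hc 5, hc 6, hc 7, hc 8, LS.LW hn, ?_, hCR, hx, hy,
    LS.mul hG (hd 0), LS.mul hG (hd 1),
    LS.mul hG (LS.add (LS.add (hd 0) (hd 2)) (LS.mul (LS.const 5) hl)), LS.mul (LS.const c) hn,
    ?_, ?_, ?_, ?_, ?_, ?_, ?_⟩
  · exact LS.pow_of_le (f := fun _ => 2) (by fun_prop) (LS.mul (LS.const 2) hl) hCR
      fun z => pow_ll_le (x z)
  · unfold CS
    exact (LS.add hx (LS.const 2)).pow_const (8000 + c)
  · intro z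
    show 0 < 2 ^ (2 * ll (Nat.log 2 (x z)))
    positivity
  · intro z
    exact ((beta_pow_le (x z)).trans (CM_le_CR (x z))).trans (CR_le_CS c (x z))
  · intro z
    refine two_pow_le_CS c ?_
    obtain ⟨h1, -, -, -⟩ := red (Nat.log 2 (x z)) (T z)
    have h2 := h1.trans (hgR _ _)
    show gT (Nat.log 2 (x z)) (T z) * dig (Nat.log 2 (x z) + 2) (T z) 0 + 2 ≤ _
    rw [Nat.mul_add, Nat.mul_add] at h2
    omega
  · intro z
    refine two_pow_le_CS c ?_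
    obtain ⟨-, -, -, h1⟩ := red (Nat.log 2 (x z)) (T z)
    have h2 := h1.trans (ZL_le _)
    show gT (Nat.log 2 (x z)) (T z) * dig (Nat.log 2 (x z) + 2) (T z) 1 + 2 ≤ _
    omega
  · intro z
    refine two_pow_le_CS c ?_
    obtain ⟨h1, -, -, -⟩ := red (Nat.log 2 (x z)) (T z)
    have h2 := h1.trans (hgR _ _)
    show gT (Nat.log 2 (x z)) (T z) * (dig (Nat.log 2 (x z) + 2) (T z) 0 +
          dig (Nat.log 2 (x z) + 2) (T z) 2 + 5 * ll (Nat.log 2 (x z))) + 2 ≤ _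
    omega
  · intro z
    show 2 ^ (c * Nat.log 2 (x z) + 2) ≤ CS c (x z)
    rw [pow_add, mul_comm c, pow_mul]
    have h1 : 2 ^ Nat.log 2 (x z) ≤ x z + 2 := by
      rcases Nat.eq_zero_or_pos (x z) with h | h
      · rw [h]
        simp
      · exact (Nat.pow_log_le_self 2 h.ne').trans (by omega)
    have h2 : (x z + 2) ^ c * (x z + 2) ^ 2 ≤ CS c (x z) := by
      unfold CS
      rw [← pow_add]
      exact Nat.pow_le_pow_right (by omega) (by omega)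
    exact (Nat.mul_le_mul (Nat.pow_le_pow_left h1 c) (Nat.pow_le_pow_left (by omega) 2)).trans h2

end

/-- The parameters are admissible. -/
theorem prm_adm (c e x y T : ℕ) :
    (prm c e x y T).V + 1 ≤ gH (Nat.log 2 x) (hT (Nat.log 2 x) T) ∧
    ((prm c e x y T).V + 2) * hT (Nat.log 2 x) T ≤ gH (Nat.log 2 x) (hT (Nat.log 2 x) T) ∧
    (prm c e x y T).Z + 1 ≤ gH (Nat.log 2 x) (hT (Nat.log 2 x) T) *
      gH (Nat.log 2 x) (hT (Nat.log 2 x) T) ∧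
    (prm c e x y T).S ≤ (prm c e x y T).V ∧
    (prm c e x y T).S < gR (Nat.log 2 x) ∧ (prm c e x y T).Z ≤ ZL (Nat.log 2 x) := by
  obtain ⟨h1, h2, h3, h4⟩ := red (Nat.log 2 x) T
  refine ⟨h1, h2, h3, ?_, ?_, h4⟩
  · show gT (Nat.log 2 x) T * dig (Nat.log 2 x + 2) T 0 ≤ gT (Nat.log 2 x) T *
      (dig (Nat.log 2 x + 2) T 0 + dig (Nat.log 2 x + 2) T 2 + 5 * ll (Nat.log 2 x))
    exact Nat.mul_le_mul_left _ (by omega)
  · show gT (Nat.log 2 x) T * dig (Nat.log 2 x + 2) T 0 < gR (Nat.log 2 x)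
    have h5 := h1.trans (gH3_le _ _)
    rw [Nat.mul_add, Nat.mul_add] at h5
    omega

/-- The bounds of the theorem give admissible parameters. -/
theorem par (C : ℝ) : ∀ᶠ n : ℕ in atTop, ∀ s a x h : ℕ,
    (x : ℝ) * ((s : ℝ) + ((h : ℝ) + ((Nat.log 2 n : ℝ) + 1))) *
        ((h : ℝ) + ((Nat.log 2 n : ℝ) + 1)) ^ 2 ≤ C * ((n : ℝ) + 1) ^ ((3 : ℝ) / 2) →
    ((s : ℝ) + ((h : ℝ) + ((Nat.log 2 n : ℝ) + 1))) * ((h : ℝ) + 1) *
        ((h : ℝ) + ((Nat.log 2 n : ℝ) + 1)) ≤ C * ((n : ℝ) + 1) ^ ((1 : ℝ) / 2) →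
    (a : ℝ) * ((h : ℝ) + ((Nat.log 2 n : ℝ) + 1)) ^ 2 ≤ C * ((n : ℝ) + 1) →
    gd n s a h = 1 ∧ s < n + 2 ∧ a < n + 2 ∧ h < n + 2 ∧
    2 + 2 ^ (s + 1) * (2 ^ h * (x + 1) + 1) ≤ 2 ^ (s + h + 5 * ll n + 1) ∧
    2 ^ h * (x + 1) < 2 ^ (s + h + 5 * ll n) ∧
    2 * (x + 1) + 1 ≤ gH n h * (gH n h * (gH n h / (s + h + 5 * ll n + 1))) := by
  filter_upwards [Pool.Agent.Helper5.Sus.par (max C 0) 0] with n hn s a x h h1 h2 h3
  have hC : C ≤ max C 0 := le_max_left _ _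
  have hC0 : 0 ≤ max C 0 := le_max_right _ _
  have hn1 : (1 : ℝ) ≤ (n : ℝ) + 1 := by
    have : (0 : ℝ) ≤ n := Nat.cast_nonneg n
    linarith
  have hl : (0 : ℝ) ≤ ((Nat.log 2 n : ℝ) + 1) := by positivity
  have g1 := h1.trans (mul_le_mul_of_nonneg_right hC (by positivity))
  have g2 := h2.trans (mul_le_mul_of_nonneg_right hC (by positivity))
  have g3 := h3.trans (mul_le_mul_of_nonneg_right hC (by positivity))
  have g4 : ((0 : ℕ) + 1 : ℝ) * (((0 : ℕ) : ℝ) + s + ((h : ℝ) + ((Nat.log 2 n : ℝ) + 1))) *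
      ((h : ℝ) + ((Nat.log 2 n : ℝ) + 1)) ≤ max C 0 * ((n : ℝ) + 1) := by
    have e1 : ((n : ℝ) + 1) ^ ((1 : ℝ) / 2) ≤ (n : ℝ) + 1 := by
      calc ((n : ℝ) + 1) ^ ((1 : ℝ) / 2) ≤ ((n : ℝ) + 1) ^ (1 : ℝ) :=
            Real.rpow_le_rpow_of_exponent_le hn1 (by norm_num)
        _ = _ := Real.rpow_one _
    have e2 : ((s : ℝ) + ((h : ℝ) + ((Nat.log 2 n : ℝ) + 1))) *
        ((h : ℝ) + ((Nat.log 2 n : ℝ) + 1)) ≤
        ((s : ℝ) + ((h : ℝ) + ((Nat.log 2 n : ℝ) + 1))) * ((h : ℝ) + 1) *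
        ((h : ℝ) + ((Nat.log 2 n : ℝ) + 1)) := by
      refine mul_le_mul_of_nonneg_right ?_ (by positivity)
      refine le_mul_of_one_le_right (by positivity) ?_
      have : (0 : ℝ) ≤ h := Nat.cast_nonneg h
      linarith
    have e3 := mul_le_mul_of_nonneg_left e1 hC0
    push_cast
    calc _ = ((s : ℝ) + ((h : ℝ) + ((Nat.log 2 n : ℝ) + 1))) *
        ((h : ℝ) + ((Nat.log 2 n : ℝ) + 1)) := by ring
      _ ≤ _ := (e2.trans g2).trans e3
  obtain ⟨q1, q2, q3, q4, _, _, q7, q8, q9⟩ := hn s a x h 0 0 g1 g2 g3 g4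
  refine ⟨?_, q2, q3, q4, ?_, q8, q9⟩
  · obtain ⟨k1, k2, k3, k4, _⟩ := Pool.Agent.Helper88.Sus.gd_one q1
    unfold gd le01
    rw [if_pos k1, if_pos k2, if_pos k3, if_pos k4]
  · simpa using q7

end Pool.Agent.Helper31.SusD
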