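import Pool.Agent.Helper31.SusD.Snd

/-!
# The time between two messages
-/

namespace Pool.Agent.Helper31.SusD

open Pool.Agent.Helper65.LinSpace Pool.Agent.Helper78.Mpc Finset

variable {A : DBM} {w y : List Bool} {r s a x : ℕ}

theorem conf_congr {i j : ℕ} (h : A.conf w y i = A.conf w y j) (m : ℕ) :
    A.conf w y (i + m) = A.conf w y (j + m) := by
  induction m with
  | zero => exact h
  | succ m ih =>
    show A.step (A.conf w y (i + m)) = A.step (A.conf w y (j + m))
    rw [ih]

/-- Without messages the memory does not change. -/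
theorem conf_silent {t t' : ℕ} (htt : t ≤ t')
    (h : ∀ i, t ≤ i → i < t' → ¬A.msg (A.conf w y (i + 1)).1 = true) :
    (A.conf w y t').2 = (A.conf w y t).2 := by
  induction t', htt using Nat.le_induction with
  | base => rfl
  | succ t' ht ih =>
    rw [← ih fun i h1 h2 => h i h1 (by omega)]
    funext i
    show A.upd (A.conf w y (t' + 1)).1 i ((A.conf w y t').2 i) = _
    unfold DBM.upd
    rw [if_neg fun h' => h t' ht (Nat.lt_succ_self _) h'.1]

theorem num_lt_two_pow {S : ℕ} {w : List Bool} (h : w.length ≤ S) : num w < 2 ^ (S + 1) := by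
  have h1 := Nat.lt_pow_succ_log_self (b := 2) (by norm_num) (num w)
  rw [log_num] at h1
  exact lt_of_lt_of_le h1 (Nat.pow_le_pow_right (by norm_num) (by omega))

/-- A silent stretch before the first accepting time has less than `2 ^ (s + 1)` steps. -/
theorem silent_lt (hfit : A.Fits w y r s a) (hacc : A.AcceptsAt w y r)
    (hmin : ∀ r' < r, ¬A.AcceptsAt w y r') {t t' : ℕ} (htt : t ≤ t') (ht : t' ≤ r)
    (h : ∀ i, t ≤ i → i < t' → ¬A.msg (A.conf w y (i + 1)).1 = true) :
    t' - t < 2 ^ (s + 1) := by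
  by_contra hcon
  have hne : ∀ i j, t ≤ i → i < j → j ≤ t' → (A.conf w y i).1 ≠ (A.conf w y j).1 := by
    intro i j hi hij hj he
    have h1 := conf_silent (A := A) (w := w) (y := y) (t := i) (t' := j) hij.le
      fun k h1 h2 => h k (by omega) (by omega)
    have h2 : A.conf w y i = A.conf w y j := Prod.ext he h1.symm
    have h3 := conf_congr h2 (r - j)
    rw [show j + (r - j) = r by omega] at h3
    refine hmin (i + (r - j)) (by omega) ?_
    unfold DBM.AcceptsAt
    rw [h3]
    exact hacc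
  obtain ⟨i, hi, j, hj, hij, e⟩ := exists_ne_map_eq_of_card_lt_of_maps_to
    (s := Icc t t') (t := range (2 ^ (s + 1))) (f := fun i => num (A.conf w y i).1)
    (by rw [card_range, Nat.card_Icc]; omega)
    (fun i hi => by
      rw [coe_range, Set.mem_Iio]
      rw [coe_Icc, Set.mem_Icc] at hi
      exact num_lt_two_pow (hfit i (by omega)).1)
  rw [mem_Icc] at hi hj
  have e' : (A.conf w y i).1 = (A.conf w y j).1 :=
    Pool.Agent.Helper65.LinSpace.num_injective e
  rcases Nat.lt_or_gt_of_ne hij with h1 | h1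
  · exact hne i j hi.1 h1 hj.2 e'
  · exact hne j i hj.1 h1 hi.2 e'.symm

/-- The number of messages is additive. -/
theorem msgs_succ {t i t' : ℕ} (h1 : t ≤ i) (h2 : i < t')
    (hm : A.msg (A.conf w y (i + 1)).1 = true) {x : ℕ} (h : A.msgs w y t t' ≤ x + 1) :
    A.msgs w y (i + 1) t' ≤ x := by
  unfold DBM.msgs at h ⊢
  have hfin : {j : ℕ | t ≤ j ∧ j < t' ∧ A.msg (A.conf w y (j + 1)).1 = true}.Finite :=
    (Set.finite_lt_nat t').subset fun j hj => hj.2.1
  have hsub : insert i {j : ℕ | i + 1 ≤ j ∧ j < t' ∧ A.msg (A.conf w y (j + 1)).1 = true} ⊆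
      {j : ℕ | t ≤ j ∧ j < t' ∧ A.msg (A.conf w y (j + 1)).1 = true} := by
    intro j hj
    rcases hj with rfl | hj
    · exact ⟨h1, h2, hm⟩
    · exact ⟨by have := hj.1; omega, hj.2⟩
  have h3 := Set.ncard_le_ncard hsub hfin
  rw [Set.ncard_insert_of_notMem (fun hj => by have := hj.1; omega)
    (hfin.subset ((Set.subset_insert _ _).trans hsub))] at h3
  omega

/-- Before the first accepting time the number of steps is bounded by the number of messages. -/
theorem time_le (hfit : A.Fits w y r s a) (hacc : A.AcceptsAt w y r)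
    (hmin : ∀ r' < r, ¬A.AcceptsAt w y r') (x : ℕ) : ∀ t t' : ℕ, t ≤ t' → t' ≤ r →
    A.msgs w y t t' ≤ x → t' ≤ t + 2 ^ (s + 1) * (x + 1) := by
  classical
  induction x with
  | zero =>
    intro t t' htt ht hx
    have hno : ∀ i, t ≤ i → i < t' → ¬A.msg (A.conf w y (i + 1)).1 = true := by
      intro i h1 h2 h3
      unfold DBM.msgs at hx
      have hfin : {j : ℕ | t ≤ j ∧ j < t' ∧ A.msg (A.conf w y (j + 1)).1 = true}.Finite :=
        (Set.finite_lt_nat t').subset fun j hj => hj.2.1
      have h4 := (Set.ncard_eq_zero hfin).1 (Nat.le_zero.1 hx)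
      have h5 : i ∈ {j : ℕ | t ≤ j ∧ j < t' ∧ A.msg (A.conf w y (j + 1)).1 = true} := ⟨h1, h2, h3⟩
      rw [h4] at h5
      exact h5
    have := silent_lt hfit hacc hmin htt ht hno
    omega
  | succ x ih =>
    intro t t' htt ht hx
    by_cases hex : ∃ i, t ≤ i ∧ i < t' ∧ A.msg (A.conf w y (i + 1)).1 = true
    · obtain ⟨i, ⟨h1, h2, h3⟩, hm⟩ : ∃ i, (t ≤ i ∧ i < t' ∧
          A.msg (A.conf w y (i + 1)).1 = true) ∧ ∀ j < i, ¬(t ≤ j ∧ j < t' ∧
          A.msg (A.conf w y (j + 1)).1 = true) :=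
        ⟨Nat.find hex, Nat.find_spec hex, fun j hj => Nat.find_min hex hj⟩
      have h4 := silent_lt hfit hacc hmin h1 (h2.le.trans ht)
        fun j h5 h6 h7 => hm j h6 ⟨h5, by omega, h7⟩
      have h5 := ih (i + 1) t' (by omega) ht (msgs_succ h1 h2 h3 hx)
      have h6 : 2 ^ (s + 1) * (x + 1 + 1) = 2 ^ (s + 1) * (x + 1) + 2 ^ (s + 1) := by ring
      omega
    · push Not at hex
      have h4 := silent_lt hfit hacc hmin htt ht fun i h1 h2 => hex i h1 h2
      have h6 : 2 ^ (s + 1) * (x + 1 + 1) = 2 ^ (s + 1) * (x + 1) + 2 ^ (s + 1) := by ring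
      omega

end Pool.Agent.Helper31.SusD
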