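import Pool.Agent.Helper31.SusD.Chk
import Pool.Agent.Helper31.SusD.Cod
import Pool.Agent.Helper31.SusD.Par
import Pool.Agent.Helper31.SusD.Time
import Pool.Agent.Helper28.Sus.Fin

/-!
# Sustained space for deterministic machines: the final theorem
-/

namespace Pool.Agent.Helper31.SusD

open Pool.Agent.Helper65.LinSpace Pool.Agent.Helper78.Mpc Pool.Agent.Helper28.Ram Finset Filter
open Pool.Agent.Helper81.Sus2 (Decomp)
open Pool.Agent.Helper28.Long (ZL ev_par)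
open Pool.Agent.Helper81.Tok3 (gH CH LSM Sim)
open Pool.Agent.Helper28.Sus (gf chs mgf macro_sound macro_complete ev_cod)

/-! ### The simulation of a part of a computation -/

/-- The machine on numbers with the parameters of the simulation. -/
def mach (P : Prm) (g h c d τ a : ℕ) : Pool.Agent.Helper81.Tok3.Mach where
  σ := P.V + 1
  a := P.Z + 1
  b := g / (P.V + 1)
  G := g
  h := h
  A := P.wA τ a
  N := P.wN τ d a
  Q := P.wQ
  W := P.wW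
  q0 := P.w0 c
  M0 := P.cm c

/-- The conditions for the simulation. -/
structure Adm (n h : ℕ) (P : Prm) : Prop where
  h1 : P.V + 1 ≤ gH n h
  h2 : (P.V + 2) * h ≤ gH n h
  h3 : P.Z + 1 ≤ gH n h * gH n h

theorem ok_mach {n h : ℕ} {P : Prm} (hP : Adm n h P) (c d τ a : ℕ) :
    (mach P (gH n h) h c d τ a).Ok := by
  refine ⟨Nat.succ_pos _, Nat.div_pos hP.h1 (Nat.succ_pos _), ?_, ?_, ?_, ?_, ?_⟩
  · intro q
    exact capN_lt _ _
  · intro q v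
    exact capN_lt _ _
  · intro q v f
    exact capN_lt _ _
  · exact capN_lt _ _
  · intro a
    exact capN_lt _ _

theorem par_mach {n h : ℕ} {P : Prm} (hP : Adm n h P) (c d τ a : ℕ) :
    Pool.Agent.Helper81.Tok3.Par n (mach P (gH n h) h c d τ a) :=
  ⟨hP.h1, hP.h2, rfl, rfl, hP.h3⟩

/-- The simulation. -/
noncomputable def FF (Q : Sim) (n h : ℕ) (P : Prm) (c d τ a : ℕ) : ℕ :=
  Q.sim n (mach P (gH n h) h c d τ a)

theorem FF_eq (Q : Sim) {n h : ℕ} {P : Prm} (hP : Adm n h P) (c d τ a : ℕ) :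
    FF Q n h P c d τ a = (mgf (P.wA τ a) (P.wN τ d a) P.wQ P.wW h (P.w0 c) (P.cm c)
      (gH n h * (gH n h * (gH n h / (P.V + 1))))).1 :=
  Q.eq _ _ (ok_mach hP _ _ _ _) (par_mach hP _ _ _ _)

theorem FF_sound (Q : Sim) {n h : ℕ} {P : Prm} (hP : Adm n h P)
    {c d τ a : ℕ} (hF : FF Q n h P c d τ a = 1) : ∃ T, (P.wf τ c d a T).1 = 1 := by
  rw [FF_eq Q hP] at hF
  obtain ⟨t, ht⟩ := macro_sound (A := P.wA τ a) (N := P.wN τ d a) (W := P.wW) (Q := P.wQ)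
    (q := P.w0 c) (M := P.cm c) (sil P τ c d a).1 h
    (gH n h * (gH n h * (gH n h / (P.V + 1))))
  rw [ht] at hF
  exact ⟨t, hF⟩

theorem FF_complete (Q : Sim) {n h : ℕ} {P : Prm} (hP : Adm n h P)
    {c d τ a x : ℕ} (h1 : ∀ T, τ < T → (P.wf τ c d a T).1 = 1) (h2 : τ ≤ 2 ^ h * (x + 1))
    (h3 : chs (P.wA τ a) (P.wN τ d a) P.wQ P.wW (P.w0 c) (P.cm c) (τ + 1) ≤ x)
    (h4 : 2 * (x + 1) + 1 ≤ gH n h * (gH n h * (gH n h / (P.V + 1)))) :
    FF Q n h P c d τ a = 1 := by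
  rw [FF_eq Q hP]
  have hpos : 1 ≤ 2 ^ h := Nat.one_le_two_pow
  refine macro_complete (A := P.wA τ a) (N := P.wN τ d a) (W := P.wW) (Q := P.wQ)
    (q := P.w0 c) (M := P.cm c) (sil P τ c d a).1 (acc := fun q => q = 1)
    (fun t ht => (sil P τ c d a).2 t ht) (h := h) (r := τ + 1) (x := x + 1)
    (h1 (τ + 1) (Nat.lt_succ_self τ)) (h3.trans (Nat.le_succ x)) ?_ _ h4
  calc τ + 1 ≤ 2 ^ h * (x + 1) + 2 ^ h := by omega
    _ = 2 ^ h * (x + 1 + 1) := by ring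

/-! ### Linear space -/

theorem ls_chk {α : Type} [Ctx α] {P : α → Prm} {C : α → ℕ} (h : LSP P C)
    {F : α → ℕ → ℕ → ℕ → ℕ → ℕ}
    (hF : LS (fun z : α × ℕ × ℕ × ℕ × ℕ => F z.1 z.2.1 z.2.2.1 z.2.2.2.1 z.2.2.2.2)) :
    LS (fun z : α × ℕ × ℕ × ℕ => chk (P z.1) (F z.1) z.2.1 z.2.2.1 z.2.2.2) := by
  -- the context with the register
  have h4 : LSP (fun z : (α × ℕ × ℕ × ℕ) × ℕ => P z.1.1) (fun z => C z.1.1) :=
    lsp_comp h (by fun_prop)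
  have hF4 : LS (fun z : (α × ℕ × ℕ × ℕ) × ℕ => F z.1.1 z.1.2.1 z.1.2.2.2 z.1.2.2.1 z.2) :=
    LS.comp (g := fun z : α × ℕ × ℕ × ℕ × ℕ => F z.1 z.2.1 z.2.2.1 z.2.2.2.1 z.2.2.2.2)
      (f := fun z : (α × ℕ × ℕ × ℕ) × ℕ => (z.1.1, z.1.2.1, z.1.2.2.2, z.1.2.2.1, z.2)) hF
      (by fun_prop)
  have hcl : LS (fun z : (α × ℕ × ℕ × ℕ) × ℕ => (P z.1.1).cl z.1.2.2.2 z.2) :=
    ls_cl h4 (by fun_prop) (by fun_prop)
  have hro : LS (fun z : (α × ℕ × ℕ × ℕ) × ℕ => Prm.ro z.2) := ls_ro (by fun_prop)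
  have hbad : LS (fun z : (α × ℕ × ℕ × ℕ) × ℕ =>
      bad (P z.1.1) (F z.1.1) z.1.2.1 z.1.2.2.2 z.1.2.2.1 z.2) := by
    unfold bad
    have ha : LS (fun z : (α × ℕ × ℕ × ℕ) × ℕ => z.2) := by fun_prop
    exact LS.ifz ha (LS.const 0) (LS.ifz hro (LS.sub (LS.const 1)
      (LS.mul (LS.lt01 (LS.const 0) hcl) (LS.eq01 hF4 (LS.const 1)))) (LS.const 0))
  have h1 : LSP (fun z : α × ℕ × ℕ × ℕ => P z.1) (fun z => C z.1) := lsp_comp h (by fun_prop)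
  have hs : LS (fun z : α × ℕ × ℕ × ℕ => ∑ a ∈ range (2 ^ ((P z.1).S + 1)),
      bad (P z.1) (F z.1) z.2.1 z.2.2.2 z.2.2.1 a) :=
    LS.sum_le (N := fun z : α × ℕ × ℕ × ℕ => 2 ^ ((P z.1).S + 1))
      (B := fun _ => 1) (f := fun z a => bad (P z.1) (F z.1) z.2.1 z.2.2.2 z.2.2.1 a) hbad
      (ls_pS h1) (LS.const 1) fun z a _ => bad_le _ _ _ _ _ _
  have hF0 : LS (fun z : α × ℕ × ℕ × ℕ => F z.1 z.2.1 z.2.2.2 z.2.2.1 0) :=
    LS.comp (g := fun z : α × ℕ × ℕ × ℕ × ℕ => F z.1 z.2.1 z.2.2.1 z.2.2.2.1 z.2.2.2.2)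
      (f := fun z : α × ℕ × ℕ × ℕ => (z.1, z.2.1, z.2.2.2, z.2.2.1, 0)) hF (by fun_prop)
  have hτ : LS (fun z : α × ℕ × ℕ × ℕ => z.2.2.1) := by fun_prop
  have hd : LS (fun z : α × ℕ × ℕ × ℕ => z.2.2.2) := by fun_prop
  unfold chk
  exact LS.mul (LS.lt01 (LS.const 0) hτ) (LS.mul (LS.lt01 (LS.const 1) hd)
    (LS.mul (LS.eq01 hF0 (LS.const 1)) (LS.eq01 hs (LS.const 0))))

/-- The sum over the greedy sequence. -/
noncomputable def grd (P : Prm) (F : ℕ → ℕ → ℕ → ℕ → ℕ) : ℕ :=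
  ∑ j ∈ range P.cz, lt01 0 (itr (chk P F) (2 ^ P.V) P.cz j) *
    ∑ τ ∈ range (2 ^ P.V), ac F (itr (chk P F) (2 ^ P.V) P.cz j) τ

theorem grd_ne {P : Prm} {F : ℕ → ℕ → ℕ → ℕ → ℕ} : grd P F ≠ 0 ↔
    ∃ j < P.cz, itr (chk P F) (2 ^ P.V) P.cz j ≠ 0 ∧
      ∃ τ < 2 ^ P.V, ac F (itr (chk P F) (2 ^ P.V) P.cz j) τ ≠ 0 := by
  unfold grd
  rw [Ne, sum_eq_zero_iff]
  push Not
  constructor
  · rintro ⟨j, hj, h⟩
    rw [mul_ne_zero_iff, lt01_ne, Ne, sum_eq_zero_iff] at h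
    push Not at h
    obtain ⟨h1, τ, h2, h3⟩ := h
    exact ⟨j, mem_range.1 hj, h1.ne', τ, mem_range.1 h2, h3⟩
  · rintro ⟨j, hj, h1, τ, h2, h3⟩
    refine ⟨j, mem_range.2 hj, ?_⟩
    rw [mul_ne_zero_iff, lt01_ne, Ne, sum_eq_zero_iff]
    push Not
    exact ⟨Nat.pos_of_ne_zero h1, τ, mem_range.2 h2, h3⟩

theorem ls_grd {α : Type} [Ctx α] {P : α → Prm} {C : α → ℕ} (h : LSP P C)
    {F : α → ℕ → ℕ → ℕ → ℕ → ℕ}
    (hF : LS (fun z : α × ℕ × ℕ × ℕ × ℕ => F z.1 z.2.1 z.2.2.1 z.2.2.2.1 z.2.2.2.2)) :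
    LS (fun z => grd (P z) (F z)) := by
  have h1 : LSP (fun z : α × ℕ => P z.1) (fun z => C z.1) := lsp_comp h (by fun_prop)
  have h2 : LSP (fun z : (α × ℕ) × ℕ => P z.1.1) (fun z => C z.1.1) := lsp_comp h (by fun_prop)
  have hchk := ls_chk h hF
  have hi1 : LS (fun z : α × ℕ => itr (chk (P z.1) (F z.1)) (2 ^ (P z.1).V) (P z.1).cz z.2) := by
    refine LS.itr (chk := fun z : α × ℕ => chk (P z.1) (F z.1)) (N := fun z => 2 ^ (P z.1).V)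
      (Z := fun z => (P z.1).cz) (j := fun z => z.2) (ls_pV h1) (ls_cz h1) (by fun_prop) ?_
      fun a c τ d => chk_le _ _ _ _ _
    exact LS.comp (g := fun z : α × ℕ × ℕ × ℕ => chk (P z.1) (F z.1) z.2.1 z.2.2.1 z.2.2.2)
      (f := fun z : (α × ℕ) × ℕ × ℕ × ℕ => (z.1.1, z.2.1, z.2.2.1, z.2.2.2)) hchk (by fun_prop)
  have hi2 : LS (fun z : (α × ℕ) × ℕ => itr (chk (P z.1.1) (F z.1.1)) (2 ^ (P z.1.1).V)
      (P z.1.1).cz z.1.2) :=
    LS.comp (g := fun z : α × ℕ => itr (chk (P z.1) (F z.1)) (2 ^ (P z.1).V) (P z.1).cz z.2)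
      (f := fun z : (α × ℕ) × ℕ => (z.1.1, z.1.2)) hi1 (by fun_prop)
  have hac : LS (fun z : (α × ℕ) × ℕ => ac (F z.1.1) (itr (chk (P z.1.1) (F z.1.1))
      (2 ^ (P z.1.1).V) (P z.1.1).cz z.1.2) z.2) := by
    unfold ac
    refine LS.eq01 ?_ (LS.const 1)
    exact LS.comp (g := fun z : α × ℕ × ℕ × ℕ × ℕ => F z.1 z.2.1 z.2.2.1 z.2.2.2.1 z.2.2.2.2)
      (f := fun z : (α × ℕ) × ℕ => (z.1.1, itr (chk (P z.1.1) (F z.1.1)) (2 ^ (P z.1.1).V)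
        (P z.1.1).cz z.1.2, 0, z.2, 0)) hF (by fun_prop)
  have hs : LS (fun z : α × ℕ => ∑ τ ∈ range (2 ^ (P z.1).V), ac (F z.1)
      (itr (chk (P z.1) (F z.1)) (2 ^ (P z.1).V) (P z.1).cz z.2) τ) :=
    LS.sum_le (α := α × ℕ) (N := fun z => 2 ^ (P z.1).V) (B := fun _ => 1)
      (f := fun z τ => ac (F z.1) (itr (chk (P z.1) (F z.1)) (2 ^ (P z.1).V) (P z.1).cz z.2) τ)
      hac (ls_pV h1) (LS.const 1) fun z τ _ => ac_le _ _ _
  unfold grd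
  refine LS.sum_le (N := fun z => (P z).cz) (B := fun z => 2 ^ (P z).V)
    (f := fun z j => lt01 0 (itr (chk (P z) (F z)) (2 ^ (P z).V) (P z).cz j) *
      ∑ τ ∈ range (2 ^ (P z).V), ac (F z) (itr (chk (P z) (F z)) (2 ^ (P z).V) (P z).cz j) τ)
    (LS.mul (LS.lt01 (LS.const 0) hi1) hs) (ls_cz h) (ls_pV h) fun z j _ => ?_
  calc _ ≤ 1 * ∑ τ ∈ range (2 ^ (P z).V), 1 :=
        Nat.mul_le_mul (lt01_le _ _) (sum_le_sum fun τ _ => ac_le _ _ _)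
    _ = _ := by simp

/-- The simulation: not `0` if the machine with the code `e` accepts, with the bounds coded by
`T`. -/
noncomputable def acc (Q : Sim) (c e x y T : ℕ) : ℕ :=
  gT (Nat.log 2 x) T * (lt01 0 ((prm c e x y T).cq 1) *
    grd (prm c e x y T) (FF Q (Nat.log 2 x) (hT (Nat.log 2 x) T) (prm c e x y T)))

/-- The number of codes of bounds. -/
def NF (x : ℕ) : ℕ := (Nat.log 2 x + 2) ^ 3

theorem LS.NF : LS SusD.NF := by
  unfold SusD.NF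
  exact (LS.add (LS.log2 (by fun_prop)) (LS.const 2)).pow_const 3

theorem adm_prm (c e x y T : ℕ) :
    Adm (Nat.log 2 x) (hT (Nat.log 2 x) T) (prm c e x y T) := by
  obtain ⟨h1, h2, h3, _⟩ := prm_adm c e x y T
  exact ⟨h1, h2, h3⟩

theorem LS.acc (Q : Sim) (c : ℕ) :
    LS (fun z : ℕ × ℕ × ℕ × ℕ => acc Q c z.1 z.2.1 z.2.2.1 z.2.2.2) := by
  have he : LS (fun z : ℕ × ℕ × ℕ × ℕ => z.1) := by fun_prop
  have hx : LS (fun z : ℕ × ℕ × ℕ × ℕ => z.2.1) := by fun_prop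
  have hy : LS (fun z : ℕ × ℕ × ℕ × ℕ => z.2.2.1) := by fun_prop
  have hT' : LS (fun z : ℕ × ℕ × ℕ × ℕ => z.2.2.2) := by fun_prop
  have hn : LS (fun z : ℕ × ℕ × ℕ × ℕ => Nat.log 2 z.2.1) := by fun_prop
  have h1 := lsp_prm c he hx hy hT'
  have h2 : LS (fun z : ℕ × ℕ × ℕ × ℕ => gT (Nat.log 2 z.2.1) z.2.2.2) := LS_gT hn hT'
  -- the simulation
  have hF : LS (fun z : (ℕ × ℕ × ℕ × ℕ) × ℕ × ℕ × ℕ × ℕ =>
      FF Q (Nat.log 2 z.1.2.1) (hT (Nat.log 2 z.1.2.1) z.1.2.2.2)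
        (prm c z.1.1 z.1.2.1 z.1.2.2.1 z.1.2.2.2) z.2.1 z.2.2.1 z.2.2.2.1 z.2.2.2.2) := by
    have he' : LS (fun z : (ℕ × ℕ × ℕ × ℕ) × ℕ × ℕ × ℕ × ℕ => z.1.1) := by fun_prop
    have hx' : LS (fun z : (ℕ × ℕ × ℕ × ℕ) × ℕ × ℕ × ℕ × ℕ => z.1.2.1) := by fun_prop
    have hy' : LS (fun z : (ℕ × ℕ × ℕ × ℕ) × ℕ × ℕ × ℕ × ℕ => z.1.2.2.1) := by fun_prop
    have hT2 : LS (fun z : (ℕ × ℕ × ℕ × ℕ) × ℕ × ℕ × ℕ × ℕ => z.1.2.2.2) := by fun_prop
    have hn' : LS (fun z : (ℕ × ℕ × ℕ × ℕ) × ℕ × ℕ × ℕ × ℕ => Nat.log 2 z.1.2.1) := by fun_prop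
    have g1 := lsp_prm c he' hx' hy' hT2
    have hLh' : LS (fun z : (ℕ × ℕ × ℕ × ℕ) × ℕ × ℕ × ℕ × ℕ =>
        hT (Nat.log 2 z.1.2.1) z.1.2.2.2) := by
      unfold hT
      exact LS.mul (LS_gT hn' hT2) (by fun_prop)
    have g3 : LS (fun z : (ℕ × ℕ × ℕ × ℕ) × ℕ × ℕ × ℕ × ℕ =>
        gH (Nat.log 2 z.1.2.1) (hT (Nat.log 2 z.1.2.1) z.1.2.2.2)) :=
      Pool.Agent.Helper88.Sus.LS_gH3 hn' hLh'
    have hCH : LS (fun z : (ℕ × ℕ × ℕ × ℕ) × ℕ × ℕ × ℕ × ℕ => CH z.1.2.1) := by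
      unfold CH
      exact (LS.add hx' (LS.const 2)).pow_const 40000
    have gg1 : LSP (fun z : ((ℕ × ℕ × ℕ × ℕ) × ℕ × ℕ × ℕ × ℕ) × ℕ =>
        prm c z.1.1.1 z.1.1.2.1 z.1.1.2.2.1 z.1.1.2.2.2) (fun z => CS c z.1.1.2.1) :=
      lsp_comp g1 (π := fun z : ((ℕ × ℕ × ℕ × ℕ) × ℕ × ℕ × ℕ × ℕ) × ℕ => z.1) LS.fst
    have gg2 : LSP (fun z : ((ℕ × ℕ × ℕ × ℕ) × ℕ × ℕ × ℕ × ℕ) × ℕ × ℕ =>
        prm c z.1.1.1 z.1.1.2.1 z.1.1.2.2.1 z.1.1.2.2.2) (fun z => CS c z.1.1.2.1) :=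
      lsp_comp g1 (π := fun z : ((ℕ × ℕ × ℕ × ℕ) × ℕ × ℕ × ℕ × ℕ) × ℕ × ℕ => z.1) LS.fst
    have gg3 : LSP (fun z : ((ℕ × ℕ × ℕ × ℕ) × ℕ × ℕ × ℕ × ℕ) × ℕ × ℕ × ℕ =>
        prm c z.1.1.1 z.1.1.2.1 z.1.1.2.2.1 z.1.1.2.2.2) (fun z => CS c z.1.1.2.1) :=
      lsp_comp g1 (π := fun z : ((ℕ × ℕ × ℕ × ℕ) × ℕ × ℕ × ℕ × ℕ) × ℕ × ℕ × ℕ => z.1) LS.fst
    refine Q.ls hx' ?_ (fun z => par_mach (adm_prm _ _ _ _ _) _ _ _ _)
    refine ⟨LS.add g1.V (LS.const 1), LS.add g1.Z (LS.const 1),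
      LS.div g3 (LS.add g1.V (LS.const 1)), g3, hLh', ?_, ?_, ?_, ?_, ?_, ?_, hCH,
      fun z => ok_mach (adm_prm _ _ _ _ _) _ _ _ _,
      fun z => Q.nv _ _ (ok_mach (adm_prm _ _ _ _ _) _ _ _ _)
        (par_mach (adm_prm _ _ _ _ _) _ _ _ _),
      fun z => Q.sv _ _ (ok_mach (adm_prm _ _ _ _ _) _ _ _ _)
        (par_mach (adm_prm _ _ _ _ _) _ _ _ _)⟩
    · exact ls_wA gg1 (τ := fun z => z.1.2.2.2.1) (a := fun z => z.1.2.2.2.2)
        (Q := fun z => z.2) (by fun_prop) (by fun_prop) (by fun_prop)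
    · exact ls_wN gg2 (τ := fun z => z.1.2.2.2.1) (d := fun z => z.1.2.2.1)
        (a := fun z => z.1.2.2.2.2) (Q := fun z => z.2.1) (v := fun z => z.2.2) (by fun_prop)
        (by fun_prop) (by fun_prop) (by fun_prop) (by fun_prop)
    · exact ls_wQ gg1 (f := fun z => z.2) (by fun_prop)
    · exact ls_wW gg3 (x := fun z => z.2.1) (f := fun z => z.2.2.1) (c := fun z => z.2.2.2)
        (by fun_prop) (by fun_prop) (by fun_prop)
    · exact ls_w0 g1 (c := fun z => z.2.1) (by fun_prop)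
    · exact ls_cm gg1 (c := fun z => z.1.2.1) (x := fun z => z.2) (by fun_prop) (by fun_prop)
  have hq : LS (fun z : ℕ × ℕ × ℕ × ℕ => (prm c z.1 z.2.1 z.2.2.1 z.2.2.2).cq 1) :=
    ls_cq h1 (LS.const 1)
  exact LS.mul h2 (LS.mul (LS.lt01 (LS.const 0) hq) (ls_grd h1 (F := fun z : ℕ × ℕ × ℕ × ℕ =>
    FF Q (Nat.log 2 z.2.1) (hT (Nat.log 2 z.2.1) z.2.2.2) (prm c z.1 z.2.1 z.2.2.1 z.2.2.2))
    hF))

/-! ### Codes -/

theorem exists_cdeN (e : Cde) : ∃ N, cdeN N = e := by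
  obtain ⟨eA, eN, eW, eG, eL, eX, ini, B0, st⟩ := e
  set B := eA + eN + eW + eG + eL + eX + ini + B0 + st + 1 with hB
  set f : ℕ → ℕ := fun i => if i = 0 then eA else if i = 1 then eN else if i = 2 then eW else
    if i = 3 then eG else if i = 4 then eL else if i = 5 then eX else if i = 6 then ini else
    if i = 7 then B0 else st with hf
  have hlt : ∀ i < 9, f i < B := by
    intro i _
    simp only [hf]
    split_ifs <;> omega
  refine ⟨Nat.pair B (tab B 9 f), ?_⟩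
  unfold cdeN
  simp only [Nat.unpair_pair]
  rw [dig_tab hlt (show 0 < 9 by omega), dig_tab hlt (show 1 < 9 by omega),
    dig_tab hlt (show 2 < 9 by omega), dig_tab hlt (show 3 < 9 by omega),
    dig_tab hlt (show 4 < 9 by omega), dig_tab hlt (show 5 < 9 by omega),
    dig_tab hlt (show 6 < 9 by omega), dig_tab hlt (show 7 < 9 by omega),
    dig_tab hlt (show 8 < 9 by omega)]
  simp [hf]

/-! ### Soundness and completeness -/

theorem sound (Q : Sim) {A : DBM} {Δ : Decomp} {w y : List Bool} {c e T : ℕ}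
    (hP : Cod A Δ w y (prm c e (num w) (num y) T)) (h : acc Q c e (num w) (num y) T ≠ 0) :
    ∃ r, A.AcceptsAt w y r := by
  unfold acc at h
  have h1 := right_ne_zero_of_mul h
  have h2 := left_ne_zero_of_mul h1
  have h3 := right_ne_zero_of_mul h1
  have h4 : (prm c e (num w) (num y) T).cq 1 ≠ 0 := (lt01_ne.1 h2).ne'
  have h5 := (prm_adm c e (num w) (num y) T).2.2.2.1
  have hF : ∀ c' d τ a, FF Q (Nat.log 2 (num w)) (hT (Nat.log 2 (num w)) T)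
      (prm c e (num w) (num y) T) c' d τ a = 1 →
      ∃ T', ((prm c e (num w) (num y) T).wf τ c' d a T').1 = 1 :=
    fun c' d τ a hF => FF_sound Q (adm_prm c e (num w) (num y) T) hF
  rw [grd_ne] at h3
  obtain ⟨j, _, g1, τ, _, g2⟩ := h3
  rcases itr_sound (R := fun c' t => Rep A w y (prm c e (num w) (num y) T) c' (A.conf w y t))
    (rep_start hP h4) (fun c' t τ d hR _ hk => (chk_sound hP h5 hF hR hk).1) j with g3 | ⟨t, g3⟩
  · exact absurd g3 g1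
  · exact ⟨_, ac_sound hP h5 hF g3 g2⟩

theorem complete (Q : Sim) {A : DBM} {Δ : Decomp} {w y : List Bool} {c e : ℕ}
    (hCod : ∀ T, Cod A Δ w y (prm c e (num w) (num y) T))
    {r s a x h : ℕ} (hacc : A.AcceptsAt w y r) (hfit : A.Fits w y r s a)
    (hpart : ∀ t t' : ℕ, t ≤ t' → t' ≤ r →
      (∀ u, t < u → u < t' → ¬A.Short Δ w y s a (c * w.length) u) →
      A.msgs w y t t' ≤ x ∧ (t' ≤ t + 2 ^ h * (x + 1) ∨ s < h))
    (q1 : gd w.length s a h = 1) (q2 : s < w.length + 2) (q3 : a < w.length + 2)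
    (q4 : h < w.length + 2)
    (q7 : 2 + 2 ^ (s + 1) * (2 ^ h * (x + 1) + 1) ≤ 2 ^ (s + h + 5 * ll w.length + 1))
    (q8 : 2 ^ h * (x + 1) < 2 ^ (s + h + 5 * ll w.length))
    (q9 : 2 * (x + 1) + 1 ≤ gH w.length h * (gH w.length h *
      (gH w.length h / (s + h + 5 * ll w.length + 1)))) :
    ∃ T < NF (num w), acc Q c e (num w) (num y) T ≠ 0 := by
  classical
  set n := w.length with hn
  have hlog : Nat.log 2 (num w) = n := Pool.Agent.Helper65.LinSpace.log_num w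
  set f : ℕ → ℕ := fun i => if i = 0 then s else if i = 1 then a else h with hf
  have hlt : ∀ i < 3, f i < n + 2 := by
    intro i _
    simp only [hf]
    split_ifs <;> omega
  set T := tab (n + 2) 3 f with hTd
  have d0 : dig (n + 2) T 0 = s := by
    rw [hTd, dig_tab hlt (by omega)]
    simp [hf]
  have d1 : dig (n + 2) T 1 = a := by
    rw [hTd, dig_tab hlt (by omega)]
    simp [hf]
  have d2 : dig (n + 2) T 2 = h := by
    rw [hTd, dig_tab hlt (by omega)]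
    simp [hf]
  have hgT : gT n T = 1 := by
    unfold gT
    rw [d0, d1, d2, q1]
  have ehT : hT n T = h := by
    unfold SusD.hT
    rw [hgT, d2, one_mul]
  have hP := hCod T
  have hadm := adm_prm c e (num w) (num y) T
  have h5 := (prm_adm c e (num w) (num y) T).2.2.2.1
  set P := prm c e (num w) (num y) T with hPdef
  have eS : P.S = s := by
    show gT (Nat.log 2 (num w)) T * dig (Nat.log 2 (num w) + 2) T 0 = s
    rw [hlog, hgT, d0, one_mul]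
  have eZ : P.Z = a := by
    show gT (Nat.log 2 (num w)) T * dig (Nat.log 2 (num w) + 2) T 1 = a
    rw [hlog, hgT, d1, one_mul]
  have ez : P.z = c * n := by
    show c * Nat.log 2 (num w) = c * n
    rw [hlog]
  have eV : P.V = s + h + 5 * ll n := by
    show gT (Nat.log 2 (num w)) T * (dig (Nat.log 2 (num w) + 2) T 0 +
      dig (Nat.log 2 (num w) + 2) T 2 + 5 * ll (Nat.log 2 (num w))) = _
    rw [hlog, hgT, d0, d2, one_mul]
  rw [hlog, ehT] at hadm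
  -- the first accepting time
  obtain ⟨r₀, hr₀, hmin⟩ : ∃ r₀, A.AcceptsAt w y r₀ ∧ ∀ r' < r₀, ¬A.AcceptsAt w y r' :=
    ⟨Nat.find ⟨r, hacc⟩, Nat.find_spec ⟨r, hacc⟩, fun j hj => Nat.find_min ⟨r, hacc⟩ hj⟩
  have hr₀r : r₀ ≤ r := by
    by_contra hcon
    exact hmin r (by omega) hacc
  have hfit₀ : A.Fits w y r₀ s a := fun t ht => hfit t (ht.trans hr₀r)
  have hwin : ∀ t t' : ℕ, t ≤ t' → t' ≤ r₀ →
      (∀ u, t < u → u < t' → ¬A.Short Δ w y s a (c * n) u) →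
      A.msgs w y t t' ≤ x ∧ t' ≤ t + 2 ^ h * (x + 1) := by
    intro t t' h1 h2 h3
    obtain ⟨h4, h6⟩ := hpart t t' h1 (h2.trans hr₀r) h3
    refine ⟨h4, ?_⟩
    rcases h6 with h6 | h6
    · exact h6
    · have h7 := time_le hfit₀ hr₀ hmin x t t' h1 h2 h4
      refine h7.trans (Nat.add_le_add_left (Nat.mul_le_mul_right _ ?_) _)
      exact Nat.pow_le_pow_right (by norm_num) h6
  have hfitP : A.Fits w y r₀ P.S P.Z := by
    rw [eS, eZ]
    exact hfit₀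
  have hF1 : ∀ c' d τ a', FF Q n h P c' d τ a' = 1 → ∃ T', (P.wf τ c' d a' T').1 = 1 :=
    fun c' d τ a' hF => FF_sound Q hadm hF
  have hF2 : ∀ c' d τ a', (∀ T, τ < T → (P.wf τ c' d a' T).1 = 1) → τ ≤ 2 ^ h * (x + 1) →
      chs (P.wA τ a') (P.wN τ d a') P.wQ P.wW (P.w0 c') (P.cm c') (τ + 1) ≤ x →
      FF Q n h P c' d τ a' = 1 := by
    intro c' d τ a' g1 g2 g3
    refine FF_complete Q hadm g1 g2 g3 ?_
    rw [eV]
    exact q9
  have hV : ∀ τ ≤ 2 ^ h * (x + 1), 2 + 2 ^ (P.S + 1) * (τ + 1) ≤ 2 ^ (P.V + 1) := by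
    intro τ hτ
    rw [eS, eV]
    refine le_trans ?_ q7
    gcongr
  have hτV : ∀ τ ≤ 2 ^ h * (x + 1), τ < 2 ^ P.V := by
    intro τ hτ
    rw [eV]
    exact lt_of_le_of_lt hτ q8
  have hstart : A.start.length ≤ P.S := (hfitP 0 (Nat.zero_le _)).1
  have hcq : P.cq 1 ≠ 0 := by
    unfold Prm.cq
    rw [eq01, if_pos rfl, ifz_ne one_ne_zero, hP.hst, capN_num hstart]
    exact (num_pos _).ne'
  have hcz : 1 < P.cz := by
    unfold Prm.cz
    omega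
  have key := itr_complete (chk := chk P (FF Q n h P)) (ac := ac (FF Q n h P)) (N := 2 ^ P.V)
    (Z := P.cz) (r := r₀) (R := fun c' t => Rep A w y P c' (A.conf w y t)) hcz
    (rep_start hP hcq) (fun c' t hR => hR.ne)
    (fun c' t τ d hR _ hk => chk_sound hP h5 hF1 hR hk) (by
      intro c' t hR ht
      by_cases hex : ∃ u, t < u ∧ u < r₀ ∧ A.Short Δ w y s a (c * n) u
      · obtain ⟨u, ⟨g1, g2, g3⟩, g4⟩ : ∃ u, (t < u ∧ u < r₀ ∧ A.Short Δ w y s a (c * n) u) ∧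
            ∀ u' < u, ¬(t < u' ∧ u' < r₀ ∧ A.Short Δ w y s a (c * n) u') :=
          ⟨Nat.find hex, Nat.find_spec hex, fun j hj => Nat.find_min hex hj⟩
        obtain ⟨g5, g6⟩ := hwin t u g1.le g2.le fun u' k1 k2 k3 => g4 u' k2 ⟨k1, by omega, k3⟩
        have e1 : t + (u - t) = u := by omega
        have g7 : u - t ≤ 2 ^ h * (x + 1) := by omega
        obtain ⟨d, hd, hd1, hRd⟩ := exists_config hP (z := c * n) hfitP g2.le (by rw [ez])
          (by rw [eS, eZ]; exact g3)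
        refine Or.inr ⟨u - t, hτV _ g7, d, hd, by omega, ?_⟩
        refine (win (r := r₀) hP h5 hF2 hfitP (by omega) hR (hV _ g7) g7
          (by rw [e1]; exact g5)).2 (by omega) hd1 ?_
        rw [e1]
        exact hRd
      · push Not at hex
        obtain ⟨g5, g6⟩ := hwin t r₀ ht le_rfl fun u' k1 k2 k3 => hex u' k1 k2 k3
        have e1 : t + (r₀ - t) = r₀ := by omega
        have g7 : r₀ - t ≤ 2 ^ h * (x + 1) := by omega
        refine Or.inl ⟨r₀ - t, hτV _ g7, ?_⟩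
        refine (win (r := r₀) (d := 0) hP h5 hF2 hfitP (by omega) hR (hV _ g7) g7
          (by rw [e1]; exact g5)).1 ?_
        rw [e1]
        exact hr₀)
  refine ⟨T, ?_, ?_⟩
  · unfold NF
    rw [hlog]
    exact tab_lt hlt
  · unfold acc
    rw [hlog, ehT, hgT, one_mul]
    exact mul_ne_zero (lt01_ne.2 (Nat.pos_of_ne_zero hcq)) (grd_ne.2 key)

theorem exists_good (Q : Sim) (c : ℕ) (A : DBM) (Δ : Decomp) (C : ℝ) : ∃ e n₀ : ℕ,
    ∀ w y : List Bool, n₀ ≤ w.length →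
    (∀ T < NF (num w), acc Q c e (num w) (num y) T ≠ 0 → ∃ r, A.AcceptsAt w y r) ∧
    (A.Within Δ c C w y → ∃ T < NF (num w), acc Q c e (num w) (num y) T ≠ 0) := by
  obtain ⟨cd, c₀, hcd⟩ := cod A Δ
  obtain ⟨e, he⟩ := exists_cdeN cd
  obtain ⟨n₀, hn₀⟩ := eventually_atTop.1 (ev_cod (2 * c₀ + 8))
  obtain ⟨n₁, hn₁⟩ := eventually_atTop.1 (par C)
  refine ⟨e, n₀ + n₁, fun w y hw => ?_⟩
  have hlog : Nat.log 2 (num w) = w.length := Pool.Agent.Helper65.LinSpace.log_num w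
  have hCod : ∀ T, Cod A Δ w y (SusD.prm c e (num w) (num y) T) := by
    intro T
    obtain ⟨_, _, _, _, h5, h6⟩ := prm_adm c e (num w) (num y) T
    rw [hlog] at h5 h6
    obtain ⟨g1, g2, g3⟩ := hn₀ w.length (by omega) _ h5 _ h6
    obtain ⟨g4, g5⟩ := g3 (num w) hlog
    refine hcd w y _ he rfl rfl ?_ ?_ g4 g5
    · show _ ≤ LW (Nat.log 2 (num w))
      rw [hlog]
      refine le_trans ?_ g1
      generalize (SusD.prm c e (num w) (num y) T).S = S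
      generalize (SusD.prm c e (num w) (num y) T).Z = Z
      calc c₀ * (8 * S + 8 * Z + 16) ≤ c₀ * (2 * (8 * S + 8 * Z + 8)) :=
            Nat.mul_le_mul_left _ (by omega)
        _ = (2 * c₀) * (8 * S + 8 * Z + 8) := by ring
        _ ≤ (2 * c₀ + 8) * (8 * S + 8 * Z + 8) := Nat.mul_le_mul_right _ (by omega)
    · show c₀ + LW (Nat.log 2 (num w)) + _ + _ + 16 ≤ 2 ^ (2 * ll (Nat.log 2 (num w)))
      rw [hlog]
      refine le_trans ?_ g2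
      omega
  refine ⟨fun T _ hT => sound Q (hCod T) hT, ?_⟩
  rintro ⟨r, s, a, x, h, hacc, hfit, hpart, b1, b2, b3⟩
  obtain ⟨q1, q2, q3, q4, q7, q8, q9⟩ := hn₁ w.length (by omega) s a x h b1 b2 b3
  exact complete Q hCod hacc hfit hpart q1 q2 q3 q4 q7 q8 q9

/-- **Average-case hardness.** -/
theorem susd_main (Q : Sim) (c : ℕ) :
    ∃ (L : Set (List Bool)) (s : ℕ → List Bool), DLINSPACE L ∧
      (∀ n, (s n).length = n) ∧
      (∀ w, w ∈ L ↔ Odd ((List.zipWith and (s w.length) w).count true)) ∧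
      ∀ (A : DBM) (Δ : Decomp) (C : ℝ), ∃ c' : ℝ, ∀ (n : ℕ) (α : List Bool), ∀ M, M = L ∨ M = Lᶜ →
        ({w : List Bool | w.length = n ∧
          (Alt true (c * n) (fun v => ∃ r, A.AcceptsAt w (α ++ v) r) → w ∈ M) ∧
          (w ∈ M → Alt true (c * n) fun v => A.Within Δ c C w (α ++ v))}.ncard : ℝ) ≤
          2 ^ n / 2 + c' * ((min α.length (n - α.length) : ℕ) + 1) *
            2 ^ (((n : ℝ) + α.length) / 2) := by
  obtain ⟨L, s, h1, h2, h3, h4⟩ := Pool.Agent.Helper78.Gen2.alt_main (acc Q c) NF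
    (LS.acc Q c) LS.NF c
  refine ⟨L, s, h1, h2, h3, fun A Δ C => ?_⟩
  have h := h4 (fun w y => ∃ r, A.AcceptsAt w y r) (A.Within Δ c C) (exists_good Q c A Δ C)
  simp only [Pool.Agent.Helper28.Few.alt_iff] at h
  exact h

/-- Languages accepted within the bounds are in linear space. -/
theorem susd_lin (Q : Sim) (c : ℕ) (A : DBM) (Δ : Decomp) (L : Set (List Bool)) (C : ℝ)
    (h1 : ∀ w, Alt true (c * w.length) (fun v => ∃ r, A.AcceptsAt w v r) → w ∈ L)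
    (h2 : ∀ w ∈ L, Alt true (c * w.length) (A.Within Δ c C w)) : DLINSPACE L :=
  Pool.Agent.Helper78.Gen2.alt_lin (acc Q c) NF (LS.acc Q c) LS.NF c L
    (fun w y => ∃ r, A.AcceptsAt w y r) (A.Within Δ c C) (exists_good Q c A Δ C)
    (fun w h => h1 w ((Pool.Agent.Helper28.Few.alt_iff _ _ _).1 h))
    (fun w hw => (Pool.Agent.Helper28.Few.alt_iff _ _ _).2 (h2 w hw))

end Pool.Agent.Helper31.SusD
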