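import Pool.Agent.Helper31.SusD.Fin
import Pool.Agent.Helper81.Tok3.Bridge

/-!
# Sustained space for deterministic machines of any running time
-/

namespace Pool.Agent.Helper31.SusD

open Pool.Agent.Helper65.LinSpace Pool.Agent.Helper28.Ram
open Pool.Agent.Helper81.Sus2 (Decomp)

theorem sustained_det (c : ℕ) :
    (∀ (A : DBM) (Δ : Decomp) (L : Set (List Bool)) (C : ℝ),
      (∀ w, Alt true (c * w.length) (fun v => ∃ r, A.AcceptsAt w v r) → w ∈ L) →
      (∀ w ∈ L, Alt true (c * w.length) (A.Within Δ c C w)) → DLINSPACE L) ∧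
    ∃ (L : Set (List Bool)) (s : ℕ → List Bool), DLINSPACE L ∧
      (∀ n, (s n).length = n) ∧
      (∀ w, w ∈ L ↔ Odd ((List.zipWith and (s w.length) w).count true)) ∧
      ∀ (A : DBM) (Δ : Decomp) (C : ℝ), ∃ c' : ℝ, ∀ (n : ℕ) (α : List Bool),
        ∀ M, M = L ∨ M = Lᶜ →
          ({w : List Bool | w.length = n ∧
            (Alt true (c * n) (fun v => ∃ r, A.AcceptsAt w (α ++ v) r) → w ∈ M) ∧
            (w ∈ M → Alt true (c * n) fun v => A.Within Δ c C w (α ++ v))}.ncard : ℝ) ≤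
          2 ^ n / 2 +
            c' * ((min α.length (n - α.length) : ℕ) + 1) * 2 ^ (((n : ℝ) + α.length) / 2) :=
  ⟨susd_lin Pool.Agent.Helper81.Tok3.theSim c, susd_main Pool.Agent.Helper81.Tok3.theSim c⟩

end Pool.Agent.Helper31.SusD
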