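import Pool.Agent.Helper31.SusD.Num
import Pool.Agent.Helper59.Ram.MLS

/-!
# The functions of the machine on numbers are computed in linear space
-/

namespace Pool.Agent.Helper31.SusD

open Pool.Agent.Helper65.LinSpace Pool.Agent.Helper78.Mpc Pool.Agent.Helper28.Ram Finset
open Pool.Agent.Helper59.Ram (LS_accN)

/-- A family of machines on numbers with parameters which are computed in linear space. -/
structure LSP {α : Type} [Ctx α] (P : α → Prm) (C : α → ℕ) : Prop where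
  eA : LS fun z => (P z).eA
  eN : LS fun z => (P z).eN
  eW : LS fun z => (P z).eW
  eG : LS fun z => (P z).eG
  eL : LS fun z => (P z).eL
  eX : LS fun z => (P z).eX
  ini : LS fun z => (P z).ini
  B0 : LS fun z => (P z).B0
  st : LS fun z => (P z).st
  Λ : LS fun z => (P z).Λ
  β : LS fun z => (P z).β
  B : LS fun z => (P z).B
  x : LS fun z => (P z).x
  y : LS fun z => (P z).y
  S : LS fun z => (P z).S
  Z : LS fun z => (P z).Z
  V : LS fun z => (P z).V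
  z : LS fun z => (P z).z
  hC : LS C
  bβ0 : ∀ z, 0 < (P z).β
  bβ : ∀ z, (P z).β ^ (P z).Λ ≤ C z
  bS : ∀ z, 2 ^ ((P z).S + 2) ≤ C z
  bZ : ∀ z, 2 ^ ((P z).Z + 2) ≤ C z
  bV : ∀ z, 2 ^ ((P z).V + 2) ≤ C z
  bz : ∀ z, 2 ^ ((P z).z + 2) ≤ C z

theorem lsp_comp {α β : Type} [Ctx α] [Ctx β] {P : α → Prm} {C : α → ℕ} (h : LSP P C)
    {π : β → α} (hπ : LS π) : LSP (fun b => P (π b)) (fun b => C (π b)) where
  eA := LS.comp (g := fun z => (P z).eA) h.eA hπ
  eN := LS.comp (g := fun z => (P z).eN) h.eN hπ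
  eW := LS.comp (g := fun z => (P z).eW) h.eW hπ
  eG := LS.comp (g := fun z => (P z).eG) h.eG hπ
  eL := LS.comp (g := fun z => (P z).eL) h.eL hπ
  eX := LS.comp (g := fun z => (P z).eX) h.eX hπ
  ini := LS.comp (g := fun z => (P z).ini) h.ini hπ
  B0 := LS.comp (g := fun z => (P z).B0) h.B0 hπ
  st := LS.comp (g := fun z => (P z).st) h.st hπ
  Λ := LS.comp (g := fun z => (P z).Λ) h.Λ hπ
  β := LS.comp (g := fun z => (P z).β) h.β hπ
  B := LS.comp (g := fun z => (P z).B) h.B hπ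
  x := LS.comp (g := fun z => (P z).x) h.x hπ
  y := LS.comp (g := fun z => (P z).y) h.y hπ
  S := LS.comp (g := fun z => (P z).S) h.S hπ
  Z := LS.comp (g := fun z => (P z).Z) h.Z hπ
  V := LS.comp (g := fun z => (P z).V) h.V hπ
  z := LS.comp (g := fun z => (P z).z) h.z hπ
  hC := LS.comp (g := C) h.hC hπ
  bβ0 := fun b => h.bβ0 (π b)
  bβ := fun b => h.bβ (π b)
  bS := fun b => h.bS (π b)
  bZ := fun b => h.bZ (π b)
  bV := fun b => h.bV (π b)
  bz := fun b => h.bz (π b)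

theorem fnN_lt (e S Λ β B a : ℕ) : fnN e S Λ β B a < 2 ^ (S + 1) := by
  unfold fnN ifz
  split_ifs with h1 h2
  · positivity
  · have h3 : cntN e S Λ β B a ≤ S := by
      by_contra h
      have h4 : lt01 S (cntN e S Λ β B a) = 1 := by rw [lt01, if_pos (by omega)]
      omega
    have h4 : tab 2 (cntN e S Λ β B a) (fun i => univ (Nat.unpair e).2 Λ β (queryN B i a)) <
        2 ^ cntN e S Λ β B a := tab_lt fun i _ => univ_lt _ _ _ _
    have h5 : 2 ^ (cntN e S Λ β B a + 1) ≤ 2 ^ (S + 1) :=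
      Nat.pow_le_pow_right (by norm_num) (by omega)
    rw [pow_succ] at h5
    omega
  · positivity

section

variable {α : Type} [Ctx α] {P : α → Prm} {C : α → ℕ}

theorem ls_pow2 {f : α → ℕ} (h : LSP P C) (hf : LS f) (hb : ∀ z, 2 ^ f z ≤ C z) :
    LS fun z => 2 ^ f z :=
  LS.pow_of_le (f := fun _ => 2) (LS.const 2) hf h.hC hb

theorem bS1 (h : LSP P C) (z : α) : 2 ^ ((P z).S + 1) ≤ C z :=
  (Nat.pow_le_pow_right (by norm_num) (by omega)).trans (h.bS z)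

theorem bZ1 (h : LSP P C) (z : α) : 2 ^ ((P z).Z + 1) ≤ C z :=
  (Nat.pow_le_pow_right (by norm_num) (by omega)).trans (h.bZ z)

theorem b11 (h : LSP P C) (z : α) : 2 ^ (1 + 1) ≤ C z :=
  (Nat.pow_le_pow_right (by norm_num) (by omega)).trans (h.bS z)

theorem ls_pS (h : LSP P C) : LS fun z => 2 ^ ((P z).S + 1) :=
  ls_pow2 h (LS.add h.S (LS.const 1)) (bS1 h)

theorem ls_pZ (h : LSP P C) : LS fun z => 2 ^ ((P z).Z + 1) :=
  ls_pow2 h (LS.add h.Z (LS.const 1)) (bZ1 h)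

theorem ls_pV (h : LSP P C) : LS fun z => 2 ^ (P z).V :=
  ls_pow2 h h.V fun z => (Nat.pow_le_pow_right (by norm_num) (by omega)).trans (h.bV z)

theorem ls_pz (h : LSP P C) : LS fun z => 2 ^ ((P z).z + 1) :=
  ls_pow2 h (LS.add h.z (LS.const 1)) fun z =>
    (Nat.pow_le_pow_right (by norm_num) (by omega)).trans (h.bz z)

theorem ls_fA (h : LSP P C) {q : α → ℕ} (hq : LS q) : LS fun z => (P z).fA (q z) := by
  unfold Prm.fA
  exact LS.fnN h.eA h.S h.Λ h.β h.B hq h.hC h.bβ0 h.bβ (bS1 h)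

theorem ls_fG (h : LSP P C) {q : α → ℕ} (hq : LS q) : LS fun z => (P z).fG (q z) := by
  unfold Prm.fG
  exact LS.mod (LS.fnN (S := fun _ => 1) h.eG (LS.const 1) h.Λ h.β h.B hq h.hC h.bβ0 h.bβ
    (b11 h)) (LS.const 2)

theorem ls_fN (h : LSP P C) {q v : α → ℕ} (hq : LS q) (hv : LS v) :
    LS fun z => (P z).fN (q z) (v z) := by
  unfold Prm.fN
  have hc : LS fun z => catN (sdN (q z)) (2 * v z) := by fun_prop
  exact LS.ifz hv (LS.const 0) (LS.fnN h.eN h.S h.Λ h.β h.B hc h.hC h.bβ0 h.bβ (bS1 h))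

theorem ls_fW (h : LSP P C) {q x c : α → ℕ} (hq : LS q) (hx : LS x) (hc : LS c) :
    LS fun z => (P z).fW (q z) (x z) (c z) := by
  unfold Prm.fW
  have hc : LS fun z => catN (sdN (q z)) (catN (sdN (x z)) (c z)) := by fun_prop
  exact LS.fnN h.eW h.Z h.Λ h.β h.B hc h.hC h.bβ0 h.bβ (bZ1 h)

theorem ls_ro {x : α → ℕ} (hx : LS x) : LS fun z => Prm.ro (x z) := by
  unfold Prm.ro
  exact LS.mul (LS.lt01 (LS.const 1) hx) (LS.sub (LS.const 1) (LS.mod hx (LS.const 2)))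

theorem ls_ix {x : α → ℕ} (hx : LS x) : LS fun z => Prm.ix (x z) := by
  unfold Prm.ix
  have h1 : LS fun z => x z / 2 := LS.div hx (LS.const 2)
  exact LS.sub h1 (LS.pow_log h1)

theorem ls_enc (h : LSP P C) {q t : α → ℕ} (hq : LS q) (ht : LS t) :
    LS fun z => (P z).enc (q z) (t z) := by
  unfold Prm.enc
  exact LS.add (LS.const 2) (LS.add hq (LS.mul (ls_pS h) ht))

theorem ls_dq (h : LSP P C) {Q : α → ℕ} (hQ : LS Q) : LS fun z => (P z).dq (Q z) := by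
  unfold Prm.dq
  exact LS.mod (LS.sub hQ (LS.const 2)) (ls_pS h)

theorem ls_dt (h : LSP P C) {Q : α → ℕ} (hQ : LS Q) : LS fun z => (P z).dt (Q z) := by
  unfold Prm.dt
  exact LS.div (LS.sub hQ (LS.const 2)) (ls_pS h)

theorem ls_dl (h : LSP P C) {d q : α → ℕ} (hd : LS d) (hq : LS q) :
    LS fun z => (P z).dl (d z) (q z) := by
  unfold Prm.dl
  have hX := h.x
  have hY := h.y
  have h1 : LS fun z => q z - 2 ^ Nat.log 2 (q z) := LS.sub hq (LS.pow_log hq)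
  fun_prop

theorem ls_fL (h : LSP P C) {σ : α → ℕ} (hσ : LS σ) : LS fun z => (P z).fL (σ z) := by
  unfold Prm.fL
  exact LS.fnN h.eL h.Z h.Λ h.β h.B hσ h.hC h.bβ0 h.bβ (bZ1 h)

theorem ls_fX (h : LSP P C) {σ u : α → ℕ} (hσ : LS σ) (hu : LS u) :
    LS fun z => (P z).fX (σ z) (u z) := by
  unfold Prm.fX
  have hc : LS fun z => catN (sdN (σ z)) (u z) := by fun_prop
  exact LS.fnN h.eX h.Z h.Λ h.β h.B hc h.hC h.bβ0 h.bβ (bZ1 h)

theorem ls_dst (h : LSP P C) {d σ : α → ℕ} (hd : LS d) (hσ : LS σ) :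
    LS fun z => (P z).dst (d z) (σ z) := by
  unfold Prm.dst
  have h1 := ls_fL h hσ
  exact LS.ifz (LS_accN hσ) (LS.ifz h1 (LS.const 0) (ls_fX h hσ (ls_dl h hd h1))) hσ

theorem dr_lt (P : Prm) (d x t : ℕ) : P.dr d x t < 2 ^ (P.Z + 1) := by
  induction t with
  | zero => exact capN_lt _ _
  | succ t ih =>
    show P.dst d (P.dr d x t) < _
    unfold Prm.dst ifz
    split_ifs
    · positivity
    · exact fnN_lt _ _ _ _ _ _
    · exact ih

theorem ls_dr (h : LSP P C) {d x t : α → ℕ} (hd : LS d) (hx : LS x) (ht : LS t) :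
    LS fun z => (P z).dr (d z) (x z) (t z) := by
  unfold Prm.dr
  have h1 : LSP (fun z : α × ℕ × ℕ => P z.1) (fun z => C z.1) := lsp_comp h LS.fst
  refine LS.nrec (G := fun z => capN (P z).Z (2 * x z)) (N := t) (C := C)
    (K := fun z _ σ => (P z).dst (d z) σ) (LS.capN h.Z (LS.mul (LS.const 2) hx)) ht h.hC ?_ ?_
  · exact ls_dst h1 (LS.comp (g := d) hd LS.fst) (by fun_prop)
  · intro z i _
    exact (dr_lt (P z) (d z) (x z) i).le.trans (bZ1 h z)

theorem ls_lk (h : LSP P C) {D x : α → ℕ} (hD : LS D) (hx : LS x) :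
    LS fun z => (P z).lk (D z) (x z) := by
  unfold Prm.lk
  have h1 := ls_dr h hD hx (ls_pZ h)
  exact LS.ifz (LS.eq01 (LS.mod h1 (LS.const 4)) (LS.const 3)) (LS.const 0)
    (LS.div h1 (LS.const 4))

theorem ls_cq (h : LSP P C) {c : α → ℕ} (hc : LS c) : LS fun z => (P z).cq (c z) := by
  unfold Prm.cq
  exact LS.ifz (LS.eq01 hc (LS.const 1)) (LS.mod (LS.sub hc (LS.const 2)) (ls_pS h))
    (LS.capN h.S h.st)

theorem ls_cl (h : LSP P C) {c x : α → ℕ} (hc : LS c) (hx : LS x) :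
    LS fun z => (P z).cl (c z) (x z) := by
  unfold Prm.cl
  exact LS.ifz (LS.eq01 hc (LS.const 1))
    (LS.capN h.Z (ls_lk h (LS.div (LS.sub hc (LS.const 2)) (ls_pS h)) hx)) (LS.const 1)

theorem ls_cm (h : LSP P C) {c x : α → ℕ} (hc : LS c) (hx : LS x) :
    LS fun z => (P z).cm (c z) (x z) := by
  unfold Prm.cm
  have hi := ls_ix hx
  have hX := h.x
  have hY := h.y
  have hd : LS fun z => 3 * letN (P z).x (Prm.ix (x z)) + letN (P z).y (Prm.ix (x z)) := by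
    fun_prop
  exact LS.capN h.Z (LS.ifz (ls_ro hx) (ls_cl h hc hx) (LS.dig h.B0 h.ini hd))

theorem ls_wA (h : LSP P C) {τ a Q : α → ℕ} (hτ : LS τ) (ha : LS a) (hQ : LS Q) :
    LS fun z => (P z).wA (τ z) (a z) (Q z) := by
  unfold Prm.wA
  exact LS.capN h.V (LS.ifz (LS.lt01 (LS.const 1) hQ) (LS.const 0)
    (LS.ifz (LS.eq01 (ls_dt h hQ) hτ) (ls_fA h (ls_dq h hQ)) ha))

theorem ls_wF (h : LSP P C) {d a Q v : α → ℕ} (hd : LS d) (ha : LS a) (hQ : LS Q) (hv : LS v) :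
    LS fun z => (P z).wF (d z) (a z) (Q z) (v z) := by
  unfold Prm.wF
  exact LS.ifz hd (LS_accN (ls_dq h hQ)) (LS.mul (LS.eq01 (ls_dq h hQ) (ls_cq h hd))
    (LS.ifz ha (LS.const 1) (LS.eq01 hv (ls_cl h hd ha))))

theorem ls_wN (h : LSP P C) {τ d a Q v : α → ℕ} (hτ : LS τ) (hd : LS d)
    (ha : LS a) (hQ : LS Q) (hv : LS v) :
    LS fun z => (P z).wN (τ z) (d z) (a z) (Q z) (v z) := by
  unfold Prm.wN
  have hdq := ls_dq h hQ
  have hdt := ls_dt h hQ
  have hN := ls_fN h hdq hv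
  exact LS.capN h.V (LS.ifz (LS.lt01 (LS.const 1) hQ) hQ (LS.ifz (LS.eq01 hdt hτ)
    (LS.ifz (LS.mul (ls_fA h hdq) hN) (LS.const 0) (ls_enc h hN (LS.add hdt (LS.const 1))))
    (ls_wF h hd ha hQ hv)))

theorem ls_wQ (h : LSP P C) {f : α → ℕ} (hf : LS f) : LS fun z => (P z).wQ (f z) := by
  unfold Prm.wQ
  exact LS.ifz (LS.lt01 (LS.const 1) hf) (LS.const 1)
    (LS.sub (LS.const 1) (ls_fG h (ls_dq h hf)))

theorem ls_wW (h : LSP P C) {x f c : α → ℕ} (hx : LS x) (hf : LS f) (hc : LS c) :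
    LS fun z => (P z).wW (x z) (f z) (c z) := by
  unfold Prm.wW
  exact LS.capN h.Z (LS.ifz (LS.lt01 (LS.const 1) hf) hc
    (LS.ifz (LS.mul (ls_fG h (ls_dq h hf)) (LS.sub (LS.const 1) (ls_ro hx))) hc
      (ls_fW h (ls_dq h hf) hx hc)))

theorem ls_w0 (h : LSP P C) {c : α → ℕ} (hc : LS c) : LS fun z => (P z).w0 (c z) := by
  unfold Prm.w0
  exact LS.capN h.V (ls_enc h (ls_cq h hc) (LS.const 0))

theorem ls_cz (h : LSP P C) : LS fun z => (P z).cz := by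
  unfold Prm.cz
  exact LS.add (LS.const 2) (LS.mul (ls_pS h) (ls_pz h))

end

end Pool.Agent.Helper31.SusD
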