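import Pool.Agent.Helper31.SusD.Defs
import Pool.Agent.Helper31.SusD.Grd
import Pool.Agent.Helper28.Sus.Macro
import Pool.Agent.Helper28.Ram.Mach

/-!
# The machine on numbers for a part of a computation

An event is `0` (failure), `1` (the final check was successful), or codes a state `q` and the number
`t` of the steps since the start of the part. The content `0` means that the content is not known.
-/

namespace Pool.Agent.Helper31.SusD

open Pool.Agent.Helper65.LinSpace Pool.Agent.Helper78.Mpc Pool.Agent.Helper28.Ram Finset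
open Pool.Agent.Helper81.Sus2 (Decomp)
open Pool.Agent.Helper28.Sus (gf chs)

/-- The codes of the functions of a machine and of a decompressor. -/
structure Cde where
  eA : ℕ
  eN : ℕ
  eW : ℕ
  eG : ℕ
  eL : ℕ
  eX : ℕ
  ini : ℕ
  B0 : ℕ
  st : ℕ

/-- The codes of the functions of a machine, the input, and the bounds. -/
structure Prm extends Cde where
  Λ : ℕ
  β : ℕ
  B : ℕ
  x : ℕ
  y : ℕ
  /-- the length of states and names -/
  S : ℕ
  /-- the length of contents -/
  Z : ℕ
  /-- events are smaller than `2 ^ (V + 1)` -/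
  V : ℕ
  /-- the length of descriptions -/
  z : ℕ

namespace Prm

variable (P : Prm)

/-- The name of the register which is read in the state `q`. -/
def fA (q : ℕ) : ℕ := fnN P.eA P.S P.Λ P.β P.B q

/-- `1` if the state `q` is a message. -/
def fG (q : ℕ) : ℕ := fnN P.eG 1 P.Λ P.β P.B q % 2

/-- The next state after `q` and the content `v`. -/
def fN (q v : ℕ) : ℕ :=
  ifz v 0 (fnN P.eN P.S P.Λ P.β P.B (catN (sdN q) (2 * v)))

/-- The new content of the register `x` after the message `q`, `c` being the old content. -/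
def fW (q x c : ℕ) : ℕ := fnN P.eW P.Z P.Λ P.β P.B (catN (sdN q) (catN (sdN x) c))

/-- `1` if `x` is the name of a read-only register. -/
def ro (x : ℕ) : ℕ := lt01 1 x * (1 - x % 2)

/-- The index of the letters in the read-only register `x`. -/
def ix (x : ℕ) : ℕ := x / 2 - 2 ^ Nat.log 2 (x / 2)

/-- The event with the state `q` after `t` steps. -/
def enc (q t : ℕ) : ℕ := 2 + (q + 2 ^ (P.S + 1) * t)

/-- The state of the event `Q`. -/
def dq (Q : ℕ) : ℕ := (Q - 2) % 2 ^ (P.S + 1)

/-- The number of steps before the event `Q`. -/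
def dt (Q : ℕ) : ℕ := (Q - 2) / 2 ^ (P.S + 1)

/-! ### Descriptions -/

/-- The letters with the index `q` of the input word, the advice word, and the description `d`. -/
def dl (d q : ℕ) : ℕ :=
  catN (sdN (1 + letN P.x (q - 2 ^ Nat.log 2 q)))
    (catN (sdN (1 + letN P.y (q - 2 ^ Nat.log 2 q))) (1 + letN d (q - 2 ^ Nat.log 2 q)))

/-- The index of the letters which are read by the decompressor in the state `σ`. -/
def fL (σ : ℕ) : ℕ := fnN P.eL P.Z P.Λ P.β P.B σ

/-- The next state of the decompressor after `σ` and the word `u`. -/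
def fX (σ u : ℕ) : ℕ := fnN P.eX P.Z P.Λ P.β P.B (catN (sdN σ) u)

/-- A step of the decompressor. -/
def dst (d σ : ℕ) : ℕ := ifz (accN σ) (ifz (P.fL σ) 0 (P.fX σ (P.dl d (P.fL σ)))) σ

/-- The state of the decompressor after `t` steps. -/
def dr (d x t : ℕ) : ℕ := nrec (capN P.Z (2 * x)) (fun _ σ => P.dst d σ) t

/-- The content of the register `x` in the memory with the description `d`. -/
def lk (d x : ℕ) : ℕ :=
  ifz (eq01 (P.dr d x (2 ^ (P.Z + 1)) % 4) 3) 0 (P.dr d x (2 ^ (P.Z + 1)) / 4)

/-- The number of configurations. -/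
def cz : ℕ := 2 + 2 ^ (P.S + 1) * 2 ^ (P.z + 1)

/-- The state of the configuration `c`. -/
def cq (c : ℕ) : ℕ := ifz (eq01 c 1) ((c - 2) % 2 ^ (P.S + 1)) (capN P.S P.st)

/-- The content of the register `x` (not read-only) in the configuration `c`. -/
def cl (c x : ℕ) : ℕ := ifz (eq01 c 1) (capN P.Z (P.lk ((c - 2) / 2 ^ (P.S + 1)) x)) 1

/-- The content of the register `x` in the configuration `c`. -/
def cm (c x : ℕ) : ℕ := capN P.Z (ifz (ro x) (P.cl c x)
  (dig P.B0 P.ini (3 * letN P.x (ix x) + letN P.y (ix x))))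

/-! ### The machine

It starts with the configuration `c` and makes `τ` steps. Then it compares the state, and the content
of the register `a` if `a` is not `0`, with those of the configuration `d`; if `d = 0` it checks if
the state is accepting. -/

/-- The register which is read. -/
def wA (τ a Q : ℕ) : ℕ :=
  capN P.V (ifz (lt01 1 Q) 0 (ifz (eq01 (P.dt Q) τ) (P.fA (P.dq Q)) a))

/-- The result of the final check. -/
def wF (d a Q v : ℕ) : ℕ :=
  ifz d (accN (P.dq Q)) (eq01 (P.dq Q) (P.cq d) * ifz a 1 (eq01 v (P.cl d a)))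

/-- The next event. -/
def wN (τ d a Q v : ℕ) : ℕ :=
  capN P.V (ifz (lt01 1 Q) Q (ifz (eq01 (P.dt Q) τ)
    (ifz (P.fA (P.dq Q) * P.fN (P.dq Q) v) 0 (P.enc (P.fN (P.dq Q) v) (P.dt Q + 1)))
    (P.wF d a Q v)))

/-- `1` if the event `f` is silent. -/
def wQ (f : ℕ) : ℕ := ifz (lt01 1 f) 1 (1 - P.fG (P.dq f))

/-- The new content of the register `x` after the event `f`. -/
def wW (x f c : ℕ) : ℕ :=
  capN P.Z (ifz (lt01 1 f) c (ifz (P.fG (P.dq f) * (1 - ro x)) c (P.fW (P.dq f) x c)))

/-- The first event. -/
def w0 (c : ℕ) : ℕ := capN P.V (P.enc (P.cq c) 0)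

/-- The configuration after `t` steps. -/
def wf (τ c d a t : ℕ) : ℕ × (ℕ → ℕ) :=
  gf (P.wA τ a) (P.wN τ d a) P.wW (P.w0 c) (P.cm c) t

end Prm

/-- The numbers in `P` code the functions of the machine `A` and of the decompressor `Δ`, for states
and names of length at most `P.S` and contents of length at most `P.Z`, and the input. -/
structure Cod (A : DBM) (Δ : Decomp) (w y : List Bool) (P : Prm) : Prop where
  hA : ∀ q : List Bool, q.length ≤ P.S →
    P.fA (num q) = if (A.addr q).length ≤ P.S then num (A.addr q) else 0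
  hG : ∀ q : List Bool, q.length ≤ P.S → P.fG (num q) = (A.msg q).toNat
  hN : ∀ (q v : List Bool), q.length ≤ P.S → v.length ≤ P.Z →
    P.fN (num q) (num v) = if (A.next (sd q ++ false :: v)).length ≤ P.S then
      num (A.next (sd q ++ false :: v)) else 0
  hW : ∀ q i c : List Bool, q.length ≤ P.S → i.length ≤ P.S → c.length ≤ P.Z →
    P.fW (num q) (num i) (num c) = if (A.write (sd q ++ (sd i ++ c))).length ≤ P.Z then
        num (A.write (sd q ++ (sd i ++ c))) else 0
  hL : ∀ σ : List Bool, σ.length ≤ P.Z →
    P.fL (num σ) = if (Δ.addr σ).length ≤ P.Z then num (Δ.addr σ) else 0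
  hX : ∀ (σ : List Bool) (a b c : Option Bool), σ.length ≤ P.Z →
    P.fX (num σ) (num (sd a.toList ++ (sd b.toList ++ c.toList))) =
      if (Δ.next (sd σ ++ (sd a.toList ++ (sd b.toList ++ c.toList)))).length ≤ P.Z then
      num (Δ.next (sd σ ++ (sd a.toList ++ (sd b.toList ++ c.toList)))) else 0
  hst : P.st = num A.start
  hini : ∀ a b, dig P.B0 P.ini (3 * codeO a + codeO b) = num (A.init a b)
  hx : P.x = num w
  hy : P.y = num y

/-- The configuration with the number `c` describes the configuration `f` of the machine: `1`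
describes the start, and `c ≥ 2` all configurations with the right state whose registers have the
right contents. -/
structure Rep (A : DBM) (w y : List Bool) (P : Prm) (c : ℕ)
    (f : List Bool × (List Bool → List Bool)) : Prop where
  ne : c ≠ 0
  q : num f.1 = P.cq c
  len : f.1.length ≤ P.S
  ro : ∀ i : List Bool, i.head? = some false → f.2 i = A.mem0 w y i
  cl : ∀ i : List Bool, i.length ≤ P.S → i.head? ≠ some false → P.cl c (num i) = num (f.2 i)

end Pool.Agent.Helper31.SusD
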