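import Pool.Agent.Helper31.SusD.Num
import Pool.Agent.Helper11.Ram.MCOR
import Pool.Agent.Helper94.Sus.SND

/-!
# Soundness of the machine on numbers
-/

namespace Pool.Agent.Helper31.SusD

open Pool.Agent.Helper65.LinSpace Pool.Agent.Helper78.Mpc Pool.Agent.Helper28.Ram Finset
open Pool.Agent.Helper81.Sus2 (Decomp)
open Pool.Agent.Helper28.Sus (gf chs)
open Pool.Agent.Helper94.Sus (capN_cases capN_of_lt capN_mono num_lt_pow length_le_of_num_lt)

section

variable (P : Prm)

theorem dq_enc {q t : ℕ} (hq : q < 2 ^ (P.S + 1)) : P.dq (P.enc q t) = q := by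
  unfold Prm.dq Prm.enc
  rw [Nat.add_sub_cancel_left, Nat.add_mul_mod_self_left, Nat.mod_eq_of_lt hq]

theorem dt_enc {q t : ℕ} (hq : q < 2 ^ (P.S + 1)) : P.dt (P.enc q t) = t := by
  unfold Prm.dt Prm.enc
  rw [Nat.add_sub_cancel_left, Nat.add_mul_div_left _ _ (by positivity), Nat.div_eq_of_lt hq,
    zero_add]

theorem two_le_enc (q t : ℕ) : 2 ≤ P.enc q t := Nat.le_add_right _ _

theorem lt_enc (q t : ℕ) : lt01 1 (P.enc q t) = 1 := by
  have := two_le_enc P q t
  rw [lt01, if_pos (by omega)]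

theorem enc_lt {q t τ : ℕ} (hq : q < 2 ^ (P.S + 1)) (ht : t ≤ τ)
    (hV : 2 + 2 ^ (P.S + 1) * (τ + 1) ≤ 2 ^ (P.V + 1)) : P.enc q t < 2 ^ (P.V + 1) := by
  refine lt_of_lt_of_le ?_ hV
  unfold Prm.enc
  have h2 : 2 ^ (P.S + 1) * (t + 1) ≤ 2 ^ (P.S + 1) * (τ + 1) := Nat.mul_le_mul_left _ (by omega)
  rw [mul_add, mul_one] at h2
  omega

theorem ro_false (v : List Bool) : Prm.ro (num (false :: v)) = 1 := by
  have h1 : num (false :: v) = 2 * num v := by
    show false.toNat + 2 * num v = _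
    simp
  have h2 := num_pos v
  unfold Prm.ro
  rw [h1, lt01, if_pos (by omega)]
  omega

theorem ix_false (v : List Bool) : Prm.ix (num (false :: v)) = bval v := by
  have h1 : num (false :: v) = 2 * num v := by
    show false.toNat + 2 * num v = _
    simp
  unfold Prm.ix
  rw [h1, Nat.mul_div_cancel_left _ (by norm_num), log_num, Pool.Agent.Helper11.Ram.num_eq_bval]
  omega

theorem ro_not {i : List Bool} (h : i.head? ≠ some false) : Prm.ro (num i) = 0 := by
  rcases i with _ | ⟨b, v⟩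
  · simp [Prm.ro, num, lt01]
  · cases b
    · simp at h
    · have h1 : num (true :: v) = 1 + 2 * num v := by
        show true.toNat + 2 * num v = _
        simp
      unfold Prm.ro
      rw [h1]
      have : (1 + 2 * num v) % 2 = 1 := by omega
      rw [this]
      simp

end

section

variable {A : DBM} {Δ : Decomp} {w y : List Bool} {P : Prm}

theorem upd_ro {i : List Bool} (h : i.head? = some false) (q v : List Bool) : A.upd q i v = v := by
  unfold DBM.upd
  rw [if_neg fun h' => h'.2 h]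

theorem conf_ro {i : List Bool} (h : i.head? = some false) (t : ℕ) :
    (A.conf w y t).2 i = A.mem0 w y i := by
  induction t with
  | zero => rfl
  | succ t ih =>
    show A.upd _ i ((A.conf w y t).2 i) = _
    rw [upd_ro h, ih]

theorem conf_fst (t : ℕ) : (A.conf w y (t + 1)).1 =
    A.next (sd (A.conf w y t).1 ++ false :: (A.conf w y t).2 (A.addr (A.conf w y t).1)) := rfl

theorem conf_snd (t : ℕ) (i : List Bool) :
    (A.conf w y (t + 1)).2 i = A.upd (A.conf w y (t + 1)).1 i ((A.conf w y t).2 i) := rfl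

/-- The contents at the start of a part. -/
theorem cm_spec (H : Cod A Δ w y P) {c : ℕ} {f : List Bool × (List Bool → List Bool)}
    (hR : Rep A w y P c f) (i : List Bool) (hi : i.length ≤ P.S) :
    P.cm c (num i) = capN P.Z (num (f.2 i)) := by
  unfold Prm.cm
  by_cases hh : i.head? = some false
  · rcases i with _ | ⟨b, v⟩
    · simp at hh
    · have hb : b = false := by simpa using hh
      subst hb
      rw [ro_false, ifz_ne one_ne_zero, ix_false, H.hx, H.hy, letN_num, letN_num, H.hini,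
        hR.ro _ rfl]
      rfl
  · rw [ro_not hh, ifz_zero, hR.cl i hi hh]

theorem capN_word {v : List Bool} : capN P.Z (num v) = 0 ∨
    (capN P.Z (num v) = num v ∧ v.length ≤ P.Z) := by
  rcases capN_cases P.Z (num v) with h | h
  · exact Or.inl h
  · refine Or.inr ⟨h, length_le_of_num_lt ?_⟩
    rw [← h]
    exact capN_lt _ _

/-- The invariant. -/
def Inv (P : Prm) (e : ℕ) (m : ℕ → ℕ) (t : ℕ) (s : List Bool × (List Bool → List Bool)) : Prop :=
  e = 0 ∨ (e = P.enc (num s.1) t ∧ s.1.length ≤ P.S ∧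
    ∀ i : List Bool, i.length ≤ P.S →
      m (num i) = 0 ∨ (m (num i) = num (s.2 i) ∧ (s.2 i).length ≤ P.Z))

theorem mem_spec (H : Cod A Δ w y P) (q' i c : List Bool) (hq : q'.length ≤ P.S)
    (hi : i.length ≤ P.S) (e z : ℕ) (he : lt01 1 e = 1) (hdq : P.dq e = num q')
    (hz : z = 0 ∨ (z = num c ∧ c.length ≤ P.Z)) :
    P.wW (num i) e z = 0 ∨
      (P.wW (num i) e z = num (A.upd q' i c) ∧ (A.upd q' i c).length ≤ P.Z) := by
  unfold Prm.wW
  rw [he, ifz_ne one_ne_zero, hdq, H.hG q' hq]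
  -- a general remark on capN
  have key : ∀ (x : ℕ) (v : List Bool), (x = 0 ∨ x = num v) →
      capN P.Z x = 0 ∨ (capN P.Z x = num v ∧ v.length ≤ P.Z) := by
    rintro x v (rfl | rfl)
    · exact Or.inl (Pool.Agent.Helper11.Ram.capN_zero _)
    · exact capN_word
  apply key
  by_cases hm : A.msg q' = true ∧ i.head? ≠ some false
  · have h1 : (A.msg q').toNat * (1 - Prm.ro (num i)) = 1 := by
      rw [hm.1, ro_not hm.2]
      rfl
    rw [h1, ifz_ne one_ne_zero]
    have hupd : A.upd q' i c = A.write (sd q' ++ (sd i ++ c)) := by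
      unfold DBM.upd
      rw [if_pos hm]
    rw [hupd]
    rcases hz with rfl | ⟨rfl, hc⟩
    · left
      unfold Prm.fW
      have hcat : ∀ a, catN a 0 = 0 := by
        intro a
        by_contra h
        exact (catN_eq_zero h).2 rfl
      rw [hcat, hcat]
      rfl
    · rw [H.hW q' i c hq hi hc]
      split_ifs
      · exact Or.inr rfl
      · exact Or.inl rfl
  · have h1 : (A.msg q').toNat * (1 - Prm.ro (num i)) = 0 := by
      rcases Bool.eq_false_or_eq_true (A.msg q') with h | h
      · have hh : i.head? = some false := by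
          by_contra hcon
          exact hm ⟨h, hcon⟩
        rcases i with _ | ⟨b, v⟩
        · simp at hh
        · have hb : b = false := by simpa using hh
          subst hb
          rw [ro_false]
          simp
      · rw [h]
        simp
    rw [h1, ifz_zero]
    have hupd : A.upd q' i c = c := by
      unfold DBM.upd
      rw [if_neg hm]
    rw [hupd]
    rcases hz with h | h
    · exact Or.inl h
    · exact Or.inr h.1

variable {τ c d a t₀ : ℕ}

theorem wf_succ (t : ℕ) : P.wf τ c d a (t + 1) =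
    (P.wN τ d a (P.wf τ c d a t).1 ((P.wf τ c d a t).2 (P.wA τ a (P.wf τ c d a t).1)),
      fun x => P.wW x (P.wN τ d a (P.wf τ c d a t).1
        ((P.wf τ c d a t).2 (P.wA τ a (P.wf τ c d a t).1))) ((P.wf τ c d a t).2 x)) := rfl

/-- The events `0` and `1` are kept. -/
theorem wN_small {Q v : ℕ} (hQ : Q ≤ 1) : P.wN τ d a Q v = Q := by
  unfold Prm.wN
  rw [lt01, if_neg (by omega), ifz_zero]
  refine capN_of_lt (lt_of_le_of_lt hQ ?_)
  exact Nat.one_lt_two_pow (by omega)

theorem keep_small {t : ℕ} (h : (P.wf τ c d a t).1 ≤ 1) (s : ℕ) :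
    (P.wf τ c d a (t + s)).1 = (P.wf τ c d a t).1 := by
  induction s with
  | zero => rfl
  | succ s ih =>
    rw [← add_assoc, wf_succ]
    show P.wN τ d a _ _ = _
    rw [wN_small (by rw [ih]; exact h), ih]

theorem inv_zero (H : Cod A Δ w y P) (hR : Rep A w y P c (A.conf w y t₀)) :
    Inv P (P.wf τ c d a 0).1 (P.wf τ c d a 0).2 0 (A.conf w y t₀) := by
  show Inv P (capN P.V (P.enc (P.cq c) 0)) (P.cm c) 0 (A.conf w y t₀)
  rcases capN_cases P.V (P.enc (P.cq c) 0) with h | h
  · exact Or.inl h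
  · right
    refine ⟨by rw [h, ← hR.q], hR.len, fun i hi => ?_⟩
    rw [cm_spec H hR i hi]
    exact capN_word

theorem inv_step (H : Cod A Δ w y P) (hSV : P.S ≤ P.V) {t : ℕ} (ht : t < τ)
    (hI : Inv P (P.wf τ c d a t).1 (P.wf τ c d a t).2 t (A.conf w y (t₀ + t))) :
    Inv P (P.wf τ c d a (t + 1)).1 (P.wf τ c d a (t + 1)).2 (t + 1)
      (A.conf w y (t₀ + (t + 1))) := by
  rcases hI with h0 | ⟨he, hq, hm⟩
  · left
    rw [keep_small (by rw [h0]; exact Nat.zero_le _) 1, h0]
  rw [wf_succ]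
  set e := (P.wf τ c d a t).1 with hedef
  set m := (P.wf τ c d a t).2 with hmdef
  set s := A.conf w y (t₀ + t) with hsdef
  have hnq := num_lt_pow hq
  have hdq : P.dq e = num s.1 := by rw [he, dq_enc P hnq]
  have hdt : P.dt e = t := by rw [he, dt_enc P hnq]
  have hlt : lt01 1 e = 1 := by rw [he]; exact lt_enc P _ _
  have heq : eq01 (P.dt e) τ = 0 := by
    rw [hdt, eq01, if_neg (by omega)]
  -- the register which is read
  have hA : P.wA τ a e = capN P.V (P.fA (num s.1)) := by
    unfold Prm.wA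
    rw [hlt, ifz_ne one_ne_zero, heq, ifz_zero, hdq]
  set v := m (P.wA τ a e) with hv
  have hN : P.wN τ d a e v = capN P.V
      (ifz (P.fA (num s.1) * P.fN (num s.1) v) 0 (P.enc (P.fN (num s.1) v) (t + 1))) := by
    unfold Prm.wN
    rw [hlt, ifz_ne one_ne_zero, heq, ifz_zero, hdq, hdt]
  show Inv P (P.wN τ d a e v) (fun x => P.wW x (P.wN τ d a e v) (m x)) (t + 1) _
  by_cases hz : P.wN τ d a e v = 0
  · exact Or.inl hz
  right
  rw [hN] at hz
  have hz1 := capN_ne hz
  rw [hz1] at hz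
  have h1 : P.fA (num s.1) * P.fN (num s.1) v ≠ 0 := by
    intro h
    rw [h, ifz_zero] at hz
    exact hz rfl
  have hfA : P.fA (num s.1) ≠ 0 := left_ne_zero_of_mul h1
  have hfN : P.fN (num s.1) v ≠ 0 := right_ne_zero_of_mul h1
  rw [H.hA _ hq] at hfA
  have hal : (A.addr s.1).length ≤ P.S := by
    by_contra h
    rw [if_neg h] at hfA
    exact hfA rfl
  have hA2 : P.wA τ a e = num (A.addr s.1) := by
    rw [hA, H.hA _ hq, if_pos hal, capN_mono hSV (num_lt_pow hal)]
  have hv0 : v ≠ 0 := by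
    intro h
    apply hfN
    unfold Prm.fN
    rw [h, ifz_zero]
  have hv1 : v = num (s.2 (A.addr s.1)) ∧ (s.2 (A.addr s.1)).length ≤ P.Z := by
    rcases hm _ hal with h | h
    · rw [hv, hA2] at hv0
      exact absurd h hv0
    · rw [hv, hA2]
      exact h
  have hs' : (A.conf w y (t₀ + (t + 1))).1 = A.next (sd s.1 ++ false :: s.2 (A.addr s.1)) := rfl
  have hfN2 : P.fN (num s.1) v =
      if (A.conf w y (t₀ + (t + 1))).1.length ≤ P.S then num (A.conf w y (t₀ + (t + 1))).1
      else 0 := by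
    rw [hv1.1, hs']
    exact H.hN _ _ hq hv1.2
  have hql : (A.conf w y (t₀ + (t + 1))).1.length ≤ P.S := by
    by_contra h
    rw [if_neg h] at hfN2
    exact hfN hfN2
  rw [if_pos hql] at hfN2
  have hval : P.wN τ d a e v = P.enc (num (A.conf w y (t₀ + (t + 1))).1) (t + 1) := by
    rw [hN, hz1, ifz_ne h1, hfN2]
  refine ⟨hval, hql, ?_⟩
  intro i hi
  have hM : (A.conf w y (t₀ + (t + 1))).2 i = A.upd (A.conf w y (t₀ + (t + 1))).1 i (s.2 i) := rfl
  rw [hM]
  refine mem_spec H _ i _ hql hi _ _ ?_ ?_ (hm i hi)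
  · rw [hval]
    exact lt_enc P _ _
  · rw [hval]
    exact dq_enc P (num_lt_pow hql)

theorem inv_all (H : Cod A Δ w y P) (hSV : P.S ≤ P.V) (hR : Rep A w y P c (A.conf w y t₀)) :
    ∀ t ≤ τ, Inv P (P.wf τ c d a t).1 (P.wf τ c d a t).2 t (A.conf w y (t₀ + t)) := by
  intro t
  induction t with
  | zero => exact fun _ => inv_zero H hR
  | succ t ih => exact fun ht => inv_step H hSV (by omega) (ih (by omega))

theorem snd (H : Cod A Δ w y P) (hSV : P.S ≤ P.V) (hR : Rep A w y P c (A.conf w y t₀)) {T : ℕ}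
    (ha : a < 2 ^ (P.S + 1)) (hT : (P.wf τ c d a T).1 = 1) :
    (A.conf w y (t₀ + τ)).1.length ≤ P.S ∧
    (d = 0 → (A.conf w y (t₀ + τ)).1.head? = some true) ∧
    (d ≠ 0 → num (A.conf w y (t₀ + τ)).1 = P.cq d ∧
      ∀ i : List Bool, num i = a → P.cl d a ≠ 0 →
        P.cl d a = num ((A.conf w y (t₀ + τ)).2 i)) := by
  have hI := inv_all (d := d) (a := a) (τ := τ) H hSV hR
  have hne : ∀ t ≤ τ, (P.wf τ c d a t).1 ≠ 1 := by
    intro t ht h1
    rcases hI t ht with h | ⟨h, _⟩
    · omega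
    · have := two_le_enc P (num (A.conf w y (t₀ + t)).1) t
      omega
  have hTτ : τ < T := by
    by_contra h
    exact hne T (by omega) hT
  rcases hI τ le_rfl with h0 | ⟨he, hq, hm⟩
  · exfalso
    have h1 := keep_small (P := P) (τ := τ) (c := c) (d := d) (a := a) (t := τ)
      (by rw [h0]; exact Nat.zero_le _) (T - τ)
    rw [show τ + (T - τ) = T by omega, hT, h0] at h1
    exact one_ne_zero h1
  set e := (P.wf τ c d a τ).1 with hedef
  set m := (P.wf τ c d a τ).2 with hmdef
  set s := A.conf w y (t₀ + τ) with hsdef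
  have hnq := num_lt_pow hq
  have hdq : P.dq e = num s.1 := by rw [he, dq_enc P hnq]
  have hdt : P.dt e = τ := by rw [he, dt_enc P hnq]
  have hlt : lt01 1 e = 1 := by rw [he]; exact lt_enc P _ _
  have heq : eq01 (P.dt e) τ = 1 := by rw [hdt, eq01, if_pos rfl]
  have hA : P.wA τ a e = a := by
    unfold Prm.wA
    rw [hlt, ifz_ne one_ne_zero, heq, ifz_ne one_ne_zero, capN_mono hSV ha]
  have hN : (P.wf τ c d a (τ + 1)).1 = capN P.V (P.wF d a e (m a)) := by
    rw [wf_succ]
    show P.wN τ d a e (m (P.wA τ a e)) = _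
    rw [hA]
    unfold Prm.wN
    rw [hlt, ifz_ne one_ne_zero, heq, ifz_ne one_ne_zero]
  have heq01 : ∀ x z : ℕ, eq01 x z ≤ 1 := by
    intro x z
    unfold eq01
    split_ifs <;> omega
  have hF : P.wF d a e (m a) ≤ 1 := by
    unfold Prm.wF ifz
    split_ifs
    · exact accN_le _
    · exact (Nat.mul_le_mul (heq01 _ _) le_rfl).trans (by omega)
    · exact (Nat.mul_le_mul (heq01 _ _) (heq01 _ _)).trans (by omega)
  have hN1 : (P.wf τ c d a (τ + 1)).1 = P.wF d a e (m a) := by
    rw [hN]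
    exact capN_of_lt (lt_of_le_of_lt hF (Nat.one_lt_two_pow (by omega)))
  have hone : P.wF d a e (m a) = 1 := by
    have h1 := keep_small (P := P) (τ := τ) (c := c) (d := d) (a := a) (t := τ + 1)
      (by rw [hN1]; exact hF) (T - (τ + 1))
    rw [show τ + 1 + (T - (τ + 1)) = T by omega, hT, hN1] at h1
    exact h1.symm
  unfold Prm.wF at hone
  rw [hdq] at hone
  refine ⟨hq, ?_, ?_⟩
  · rintro rfl
    rw [ifz_zero] at hone
    exact (accN_num _).1 hone
  · intro hd
    rw [ifz_ne hd] at hone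
    have h1 : eq01 (num s.1) (P.cq d) ≠ 0 := by
      intro h
      rw [h, zero_mul] at hone
      exact zero_ne_one hone
    have h2 : num s.1 = P.cq d := by
      by_contra h
      exact h1 (if_neg h)
    refine ⟨h2, ?_⟩
    intro i hi hcl
    have ha0 : a ≠ 0 := by
      rw [← hi]
      exact (num_pos _).ne'
    rw [ifz_ne ha0] at hone
    have h3 : eq01 (m a) (P.cl d a) ≠ 0 := by
      intro h
      rw [h, mul_zero] at hone
      exact zero_ne_one hone
    have h4 : m a = P.cl d a := by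
      by_contra h
      exact h3 (if_neg h)
    have hil : i.length ≤ P.S := by
      apply length_le_of_num_lt
      rw [hi]
      exact ha
    rcases hm i hil with h5 | h5
    · rw [hi] at h5
      rw [h4] at h5
      exact absurd h5 hcl
    · rw [hi] at h5
      rw [← h4]
      exact h5.1

/-! ### Silent events -/

theorem capN_idem (S v : ℕ) : capN S (capN S v) = capN S v := by
  by_cases h : capN S v = 0
  · rw [h]
    unfold capN ifz
    split_ifs <;> rfl
  · rw [capN_ne h, capN_ne h]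

theorem exists_cap (P : Prm) (τ c d a t x : ℕ) :
    ∃ v, (P.wf τ c d a t).2 x = capN P.Z v := by
  cases t with
  | zero => exact ⟨_, rfl⟩
  | succ t => exact ⟨_, rfl⟩

theorem wW_silent (P : Prm) (x f c : ℕ) (h : P.wQ f ≠ 0) : P.wW x f c = capN P.Z c := by
  unfold Prm.wW
  by_cases hf : lt01 1 f = 0
  · rw [hf]
    rfl
  · have h2 : P.fG (P.dq f) = 0 := by
      unfold Prm.wQ at h
      rw [ifz_ne hf] at h
      omega
    rw [ifz_ne hf, h2, zero_mul]
    rfl

/-- Silent events do not change the memory, and the event `1` is kept. -/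
theorem sil (P : Prm) (τ c d a : ℕ) :
    (∀ t x f, P.wQ f ≠ 0 → P.wW x f ((P.wf τ c d a t).2 x) = (P.wf τ c d a t).2 x) ∧
    ∀ t, (P.wf τ c d a t).1 = 1 → (P.wf τ c d a (t + 1)).1 = 1 := by
  constructor
  · intro t x f hf
    obtain ⟨v, hv⟩ := exists_cap P τ c d a t x
    rw [wW_silent P x f _ hf, hv, capN_idem]
  · intro t ht
    rw [keep_small (by rw [ht]) 1, ht]

end

end Pool.Agent.Helper31.SusD
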